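import Pool.Agent.K3C.Defs

set_option autoImplicit false

/-! # Case A1 of the cyclic construction: triangles (0,a),(0,b),(1,c) and (0,p),(0,q),(1,r) -/

namespace Pool.Agent.K3C.A1core

/-- the abstract exponential -/
structure Ex (E : ℝ → ℝ) (m : ℝ) : Prop where
  hm : 1 ≤ m
  pos : ∀ x, 0 < E x
  add : ∀ x y, E x * E y = E (x + y)
  mono : ∀ x y, x ≤ y → E x ≤ E y
  big : 1000 * m ≤ E (1 / 6)

variable {E : ℝ → ℝ} {m : ℝ}

theorem Ex.zero (h : Ex E m) : E 0 = 1 := by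
  have h1 := h.add 0 0
  rw [add_zero] at h1
  have h2 := h.pos 0
  exact mul_left_cancel₀ h2.ne' (by linarith)

theorem Ex.large (h : Ex E m) {x : ℝ} (hx : 1 / 6 ≤ x) : 1000 * m ≤ E x :=
  h.big.trans (h.mono _ _ hx)

theorem Ex.small (h : Ex E m) {x : ℝ} (hx : x ≤ -(1 / 6)) : m * E x ≤ 1 / 1000 := by
  have h1 : E (-(1 / 6)) * E (1 / 6) = 1 := by
    rw [h.add, ← h.zero]
    congr 1
    norm_num
  have h2 := h.big
  have h3 := h.mono _ _ hx
  have h4 := h.pos (-(1 / 6))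
  have h5 := h.hm
  have h6 : E (-(1 / 6)) * (1000 * m) ≤ 1 := by
    calc E (-(1 / 6)) * (1000 * m) ≤ E (-(1 / 6)) * E (1 / 6) :=
          mul_le_mul_of_nonneg_left h2 h4.le
      _ = 1 := h1
  have h7 : m * E x ≤ m * E (-(1 / 6)) := mul_le_mul_of_nonneg_left h3 (by linarith)
  linarith

theorem Ex.small' (h : Ex E m) {x : ℝ} (hx : x ≤ -(1 / 6)) : E x ≤ 1 / 1000 := by
  have h1 := h.small hx
  have h2 := h.pos x
  have h3 := h.hm
  nlinarith

theorem Ex.abs_small (h : Ex E m) {x y : ℝ} (hx : x ≤ -(1 / 6)) (hy : |y| ≤ 2 * m) :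
    |y * E x| ≤ 2 / 1000 := by
  have h1 := h.small hx
  have h2 := h.pos x
  rw [abs_mul, abs_of_pos h2]
  have h3 : |y| * E x ≤ 2 * m * E x := mul_le_mul_of_nonneg_right hy h2.le
  linarith

/-- rule R1 -/
theorem rule1 (h : Ex E m) {M a b c r k : ℝ} (hM : M = m / 2)
    (ha : 1 / 6 - M ≤ a) (hab : a + 1 ≤ b) (hb : b ≤ M - 5 / 6)
    (hc : 1 / 6 - M ≤ c) (hr : r ≤ M - 5 / 6) (hcr : c + 1 ≤ r)
    (hs : a + b + c = M - 1 / 2) (hk : |k| ≤ 1 / 2) :
    ∃ A0 A1 A2 B : ℝ,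
      0 < A0 + A1 * E (b - M) + A2 * E (-b - M) + B * b ∧
      0 < A1 + A2 * E (c - M) + A0 * E (-c - M) + B * c ∧
      A1 + A2 * E (r - M) + A0 * E (-r - M) + B * r < 0 ∧
      (∀ x, 1 / 6 - M ≤ x → x + 1 ≤ a →
        A0 + A1 * E (x - M) + A2 * E (-x - M) + B * x < 0) ∧
      (∀ x, a + 1 ≤ x → x + 1 ≤ b →
        A0 + A1 * E (x - M) + A2 * E (-x - M) + B * x < 0) ∧
      A0 + A1 * E (a - M) + A2 * E (-a - M) + B * a =
        k + E (a - b + 1 / 6) - E (-(1 / 6)) := by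
  obtain ⟨hk1, hk2⟩ := abs_le.1 hk
  have hm := h.hm
  have e1 : ∀ t, E (M - b + 1 / 6) * E (t - M) = E (t - b + 1 / 6) := fun t => by
    rw [h.add]; congr 1; ring
  have e2 : ∀ t, -E (M + a - 1 / 6) * E (-t - M) = -E (a - t - 1 / 6) := fun t => by
    rw [neg_mul, h.add]; congr 2; ring
  have e3 : ∀ t, -E (M + a - 1 / 6) * E (t - M) = -E (a + t - 1 / 6) := fun t => by
    rw [neg_mul, h.add]; congr 2; ring
  refine ⟨a + k, E (M - b + 1 / 6), -E (M + a - 1 / 6), -1, ?_, ?_, ?_, ?_, ?_, ?_⟩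
  · rw [e1, e2]
    have h1 : (1000 : ℝ) * m ≤ E (b - b + 1 / 6) := h.large (by linarith)
    have h2 := h.small' (x := a - b - 1 / 6) (by linarith)
    linarith
  · rw [e3]
    have h1 : 1000 * m ≤ E (M - b + 1 / 6) := h.large (by linarith)
    have h2 : E (a + c - 1 / 6) = E (M - b + 1 / 6) * E (-(5 / 6)) := by
      rw [h.add]; congr 1; linarith
    have h3 := h.small' (x := -(5 / 6)) (by norm_num)
    have h4 := abs_le.1 (h.abs_small (x := -c - M) (y := a + k) (by linarith)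
      (abs_le.2 ⟨by linarith, by linarith⟩))
    have h5 : E (M - b + 1 / 6) * E (-(5 / 6)) ≤ E (M - b + 1 / 6) * (1 / 1000) :=
      mul_le_mul_of_nonneg_left h3 (h.pos _).le
    rw [h2]
    linarith [h4.1]
  · rw [e3]
    have h1 : 1000 * m ≤ E (M - b + 1 / 6) := h.large (by linarith)
    have h2 : E (M - b + 1 / 6) * E (1 / 6) ≤ E (a + r - 1 / 6) := by
      rw [h.add]
      exact h.mono _ _ (by linarith)
    have h3 : E (M - b + 1 / 6) * 1000 ≤ E (M - b + 1 / 6) * E (1 / 6) :=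
      mul_le_mul_of_nonneg_left (by linarith [h.big]) (h.pos _).le
    have h4 := abs_le.1 (h.abs_small (x := -r - M) (y := a + k) (by linarith)
      (abs_le.2 ⟨by linarith, by linarith⟩))
    linarith [h4.2]
  · intro x hx1 hx2
    rw [e1, e2]
    have h1 : (1000 : ℝ) * m ≤ E (a - x - 1 / 6) := h.large (by linarith)
    have h2 := h.small' (x := x - b + 1 / 6) (by linarith)
    linarith
  · intro x hx1 hx2
    rw [e1, e2]
    have h1 := h.pos (a - x - 1 / 6)
    have h2 := h.small' (x := x - b + 1 / 6) (by linarith)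
    linarith
  · rw [e1, e2]
    have h3 : a - a - 1 / 6 = -(1 / 6 : ℝ) := by ring
    rw [h3]
    ring

/-- rule R2 -/
theorem rule2 (h : Ex E m) {M a b c p q r : ℝ} (hM : M = m / 2)
    (hp : 1 / 6 - M ≤ p) (hpa : p + 1 ≤ a) (hab : a + 1 ≤ b) (hbq : b = q ∨ b + 1 ≤ q)
    (hq : q ≤ M - 5 / 6) (hc : 1 / 6 - M ≤ c) (hr : r ≤ M - 5 / 6) (hcr : c + 1 ≤ r)
    (hs : p + q + r = M - 1 / 2) :
    ∃ A0 A1 A2 B : ℝ,
      A0 + A1 * E (a - M) + A2 * E (-a - M) + B * a < 0 ∧
      (b + 1 ≤ q → A0 + A1 * E (b - M) + A2 * E (-b - M) + B * b < 0) ∧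
      A1 + A2 * E (c - M) + A0 * E (-c - M) + B * c < 0 ∧
      0 < A0 + A1 * E (p - M) + A2 * E (-p - M) + B * p ∧
      (b + 1 ≤ q → 0 < A0 + A1 * E (q - M) + A2 * E (-q - M) + B * q) ∧
      (b = q → A0 + A1 * E (q - M) + A2 * E (-q - M) + B * q = 0) ∧
      0 < A1 + A2 * E (r - M) + A0 * E (-r - M) + B * r := by
  have hm := h.hm
  have hr1 : |r - 1 / 2| ≤ 2 * m := abs_le.2 ⟨by linarith, by linarith⟩
  have e1 : ∀ t, (-(r - 1 / 2) - E (M - q - 3 / 4)) * E (t - M) =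
      -((r - 1 / 2) * E (t - M)) - E (t - q - 3 / 4) := fun t => by
    rw [sub_mul, h.add, neg_mul]; congr 2; ring
  have e2 : ∀ t, E (M + p + 1 / 4) * E (-t - M) = E (p - t + 1 / 4) := fun t => by
    rw [h.add]; congr 1; ring
  have e3 : ∀ t, E (M + p + 1 / 4) * E (t - M) = E (p + t + 1 / 4) := fun t => by
    rw [h.add]; congr 1; ring
  obtain ⟨k, hk⟩ : ∃ k : ℝ, k = if b = q then
    (r - 1 / 2) * E (q - M) + E (-(3 / 4)) - E (p - q + 1 / 4) else 1 / 2 := ⟨_, rfl⟩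
  have s1 : ∀ t, t ≤ M - 5 / 6 → |(r - 1 / 2) * E (t - M)| ≤ 2 / 1000 := fun t ht =>
    h.abs_small (by linarith) hr1
  have hq1 : p + 2 ≤ q := by rcases hbq with h1 | h1 <;> linarith
  have hk1 : |k| ≤ 1 / 2 := by
    rw [hk]
    split_ifs
    · have h1 := abs_le.1 (s1 q hq)
      have h2 := h.small' (x := -(3 / 4)) (by norm_num)
      have h3 := h.small' (x := p - q + 1 / 4) (by linarith)
      have h4 := h.pos (-(3 / 4))
      have h5 := h.pos (p - q + 1 / 4)
      exact abs_le.2 ⟨by linarith [h1.1], by linarith [h1.2]⟩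
    · rw [abs_of_pos] <;> norm_num
  obtain ⟨hk2, hk3⟩ := abs_le.1 hk1
  have key : ∀ x, p + 1 ≤ x → x + 1 ≤ q →
      (-q + k) + (-(r - 1 / 2) - E (M - q - 3 / 4)) * E (x - M) +
        E (M + p + 1 / 4) * E (-x - M) + 1 * x < 0 := by
    intro x hx1 hx2
    rw [e1, e2]
    have h1 := abs_le.1 (s1 x (by linarith))
    have h2 := h.pos (x - q - 3 / 4)
    have h3 := h.small' (x := p - x + 1 / 4) (by linarith)
    linarith [h1.1]
  have a0 : |-q + k| ≤ 2 * m := abs_le.2 ⟨by linarith, by linarith⟩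
  refine ⟨-q + k, -(r - 1 / 2) - E (M - q - 3 / 4), E (M + p + 1 / 4), 1, ?_, ?_, ?_, ?_, ?_, ?_,
    ?_⟩
  · exact key a hpa (by rcases hbq with h1 | h1 <;> linarith)
  · exact fun h1 => key b (by linarith) h1
  · rw [e3]
    have h1 := abs_le.1 (h.abs_small (x := -c - M) (by linarith) a0)
    have h2 := h.mono (p + c + 1 / 4) (M - q - 3 / 4) (by linarith)
    linarith [h1.2]
  · rw [e1, e2]
    have h1 := abs_le.1 (s1 p (by linarith))
    have h2 : 1000 * m ≤ E (p - p + 1 / 4) := h.large (by linarith)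
    have h3 := h.small' (x := p - q - 3 / 4) (by linarith)
    linarith [h1.2]
  · intro hbq'
    have hk' : k = 1 / 2 := by
      rw [hk, if_neg]
      intro h0
      linarith
    rw [e1, e2]
    have h1 := abs_le.1 (s1 q hq)
    have h2 := h.small' (x := q - q - 3 / 4) (by linarith)
    have h3 := h.pos (p - q + 1 / 4)
    linarith [h1.2]
  · intro hbq'
    have hk' : k = (r - 1 / 2) * E (q - M) + E (-(3 / 4)) - E (p - q + 1 / 4) := by
      rw [hk, if_pos hbq']
    rw [e1, e2, hk']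
    have h3 : q - q - 3 / 4 = -(3 / 4 : ℝ) := by ring
    rw [h3]
    ring
  · rw [e3]
    have h1 := abs_le.1 (h.abs_small (x := -r - M) (by linarith) a0)
    have h2 := h.mono (M - q - 3 / 4) (p + r + 1 / 4) (by linarith)
    linarith [h1.1]

/-- the common vertex on the second line -/
theorem rule3 (h : Ex E m) {M a b c p q : ℝ} (hM : M = m / 2)
    (ha : 1 / 6 - M ≤ a) (hap : a + 1 ≤ p) (hpq : p + 1 ≤ q) (hqb : q + 1 ≤ b)
    (hb : b ≤ M - 5 / 6) (hc : 1 / 6 - M ≤ c) (hc' : c ≤ M - 5 / 6)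
    (hs : a + b + c = M - 1 / 2) :
    ∃ A0 A1 A2 B : ℝ,
      0 < A0 + A1 * E (a - M) + A2 * E (-a - M) + B * a ∧
      0 < A0 + A1 * E (b - M) + A2 * E (-b - M) + B * b ∧
      A0 + A1 * E (p - M) + A2 * E (-p - M) + B * p < 0 ∧
      A0 + A1 * E (q - M) + A2 * E (-q - M) + B * q < 0 ∧
      A1 + A2 * E (c - M) + A0 * E (-c - M) + B * c = 0 := by
  have hm := h.hm
  have a0 : |-b + 1 / 2| ≤ 2 * m := abs_le.2 ⟨by linarith, by linarith⟩
  obtain ⟨w, hw⟩ : ∃ w : ℝ, w = c + (-b + 1 / 2) * E (-c - M) := ⟨_, rfl⟩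
  have hw1 : |w| ≤ 2 * m := by
    have h1 := abs_le.1 (h.abs_small (x := -c - M) (by linarith) a0)
    rw [hw]
    exact abs_le.2 ⟨by linarith [h1.1], by linarith [h1.2]⟩
  have e2 : ∀ t, E (M + a + 1 / 4) * E (-t - M) = E (a - t + 1 / 4) := fun t => by
    rw [h.add]; congr 1; ring
  have e1 : ∀ t, (-(w + E (M + a + 1 / 4) * E (c - M))) * E (t - M) =
      -(w * E (t - M)) - E (t - b - 1 / 4) := fun t => by
    have : E (M + a + 1 / 4) * E (c - M) * E (t - M) = E (t - b - 1 / 4) := by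
      rw [h.add, h.add]; congr 1; linarith
    rw [← this]; ring
  have key : ∀ x, a + 1 ≤ x → x + 1 ≤ b →
      (-b + 1 / 2) + (-(w + E (M + a + 1 / 4) * E (c - M))) * E (x - M) +
        E (M + a + 1 / 4) * E (-x - M) + 1 * x < 0 := by
    intro x hx1 hx2
    rw [e1, e2]
    have h1 := abs_le.1 (h.abs_small (x := x - M) (by linarith) hw1)
    have h2 := h.pos (x - b - 1 / 4)
    have h3 := h.small' (x := a - x + 1 / 4) (by linarith)
    linarith [h1.1]
  refine ⟨-b + 1 / 2, -(w + E (M + a + 1 / 4) * E (c - M)), E (M + a + 1 / 4), 1, ?_, ?_, ?_, ?_,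
    ?_⟩
  · rw [e1, e2]
    have h1 := abs_le.1 (h.abs_small (x := a - M) (by linarith) hw1)
    have h2 : 1000 * m ≤ E (a - a + 1 / 4) := h.large (by linarith)
    have h3 := h.small' (x := a - b - 1 / 4) (by linarith)
    linarith [h1.2]
  · rw [e1, e2]
    have h1 := abs_le.1 (h.abs_small (x := b - M) (by linarith) hw1)
    have h2 := h.small' (x := b - b - 1 / 4) (by linarith)
    have h3 := h.pos (a - b + 1 / 4)
    linarith [h1.2]
  · exact key p hap (by linarith)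
  · exact key q (by linarith) hqb
  · rw [hw]
    ring

theorem ex_of_big {N M : ℝ} (h : Big N M) : Ex (fun x : ℝ => N ^ x) (2 * M) where
  hm := by linarith [h.1]
  pos x := h.pos x
  add x y := (h.add x y).symm
  mono x y hxy := h.mono hxy
  big := by
    have h1 := h.2.2
    have h2 : N ^ (1 / 24 : ℝ) * N ^ (1 / 24 : ℝ) ≤ N ^ (1 / 6 : ℝ) := by
      rw [← h.add]
      exact h.mono (by norm_num)
    have h3 := h.1
    have h4 : 1000 * (M + 1) * (1000 * (M + 1)) ≤ N ^ (1 / 24 : ℝ) * N ^ (1 / 24 : ℝ) :=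
      mul_le_mul h1 h1 (by linarith) (by linarith)
    nlinarith

theorem mk {N M a b c p q r A0 A1 A2 B : ℝ}
    (h1 : a ≠ p → a ≠ q → 0 < A0 + A1 * N ^ (a - M) + A2 * N ^ (-a - M) + B * a)
    (h1' : a = p ∨ a = q → A0 + A1 * N ^ (a - M) + A2 * N ^ (-a - M) + B * a = 0)
    (h2 : b ≠ p → b ≠ q → 0 < A0 + A1 * N ^ (b - M) + A2 * N ^ (-b - M) + B * b)
    (h2' : b = p ∨ b = q → A0 + A1 * N ^ (b - M) + A2 * N ^ (-b - M) + B * b = 0)
    (h3 : c ≠ r → 0 < A1 + A2 * N ^ (c - M) + A0 * N ^ (-c - M) + B * c)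
    (h3' : c = r → A1 + A2 * N ^ (c - M) + A0 * N ^ (-c - M) + B * c = 0)
    (h4 : p ≠ a → p ≠ b → A0 + A1 * N ^ (p - M) + A2 * N ^ (-p - M) + B * p < 0)
    (h5 : q ≠ a → q ≠ b → A0 + A1 * N ^ (q - M) + A2 * N ^ (-q - M) + B * q < 0)
    (h6 : r ≠ c → A1 + A2 * N ^ (r - M) + A0 * N ^ (-r - M) + B * r < 0) :
    Sp N M {((0 : ℕ), a), (0, b), (1, c)} {((0 : ℕ), p), (0, q), (1, r)} := by
  refine ⟨A0, A1, A2, B, ?_, ?_, ?_⟩
  · rintro v (rfl | rfl | rfl) hv
    · rw [val_zero]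
      exact h1 (fun h => hv (Or.inl (by rw [h]))) (fun h => hv (Or.inr (Or.inl (by rw [h]))))
    · rw [val_zero]
      exact h2 (fun h => hv (Or.inl (by rw [h]))) (fun h => hv (Or.inr (Or.inl (by rw [h]))))
    · rw [val_one]
      exact h3 (fun h => hv (Or.inr (Or.inr (by rw [h]; rfl))))
  · rintro v (rfl | rfl | rfl) hv
    · rw [val_zero]
      exact h4 (fun h => hv (Or.inl (by rw [h]))) (fun h => hv (Or.inr (Or.inl (by rw [h]))))
    · rw [val_zero]
      exact h5 (fun h => hv (Or.inl (by rw [h]))) (fun h => hv (Or.inr (Or.inl (by rw [h]))))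
    · rw [val_one]
      exact h6 (fun h => hv (Or.inr (Or.inr (by rw [h]; rfl))))
  · rintro v (rfl | rfl | rfl) hv
    · rw [val_zero]
      simp only [Set.mem_insert_iff, Set.mem_singleton_iff, Prod.mk.injEq, true_and,
        zero_ne_one, false_and, or_false] at hv
      exact h1' hv
    · rw [val_zero]
      simp only [Set.mem_insert_iff, Set.mem_singleton_iff, Prod.mk.injEq, true_and,
        zero_ne_one, false_and, or_false] at hv
      exact h2' hv
    · rw [val_one]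
      simp only [Set.mem_insert_iff, Set.mem_singleton_iff, Prod.mk.injEq, true_and,
        one_ne_zero, false_and, false_or] at hv
      exact h3' hv

theorem main {N M a b c p q r : ℝ} (hB : Big N M) (ha : G M a) (hb : G M b) (hc : G M c)
    (hp : G M p) (hq : G M q) (hr : G M r) (hab : a < b) (hpq : p < q)
    (h1 : a + b + c = M - 1 / 2) (h2 : p + q + r = M - 1 / 2) (hcr : c < r) :
    Sp N M {((0 : ℕ), a), (0, b), (1, c)} {((0 : ℕ), p), (0, q), (1, r)} := by
  have hE := ex_of_big hB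
  have hM : M = 2 * M / 2 := by ring
  have gab := ha.gap hb hab
  have gpq := hp.gap hq hpq
  have gcr := hc.gap hr hcr
  have tri := hq.tri hb
  by_cases hqb : q + 1 ≤ b
  · obtain ⟨k, hk⟩ : ∃ k : ℝ, k = if a = p ∨ a = q then
      N ^ (-(1 / 6) : ℝ) - N ^ (a - b + 1 / 6) else 1 / 2 := ⟨_, rfl⟩
    have s1 := hE.small' (x := -(1 / 6)) le_rfl
    have s2 := hE.small' (x := a - b + 1 / 6) (by linarith)
    have s3 := hB.pos (-(1 / 6))
    have s4 := hB.pos (a - b + 1 / 6)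
    have hk1 : |k| ≤ 1 / 2 := by
      rw [hk]
      split_ifs
      · exact abs_le.2 ⟨by linarith, by linarith⟩
      · rw [abs_of_pos] <;> norm_num
    obtain ⟨A0, A1, A2, B, r1, r2, r3, r4, r5, r6⟩ := rule1 hE hM ha.lo gab hb.hi hc.lo hr.hi gcr
      h1 hk1
    refine mk (A0 := A0) (A1 := A1) (A2 := A2) (B := B) ?_ ?_ (fun _ _ => r1) ?_ (fun _ => r2) ?_
      ?_ ?_ (fun _ => r3)
    · intro h3 h4
      rw [r6, hk, if_neg (by tauto)]
      linarith
    · intro h3
      rw [r6, hk, if_pos h3]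
      ring
    · rintro (h3 | h3) <;> exfalso <;> linarith
    · intro h3
      exfalso
      linarith
    · intro h3 _
      rcases hp.tri ha with h4 | h4 | h4
      · exact r4 p hp.lo h4
      · exact absurd h4 h3
      · exact r5 p h4 (by linarith)
    · intro h3 _
      rcases hq.tri ha with h4 | h4 | h4
      · exact r4 q hq.lo h4
      · exact absurd h4 h3
      · exact r5 q h4 hqb
  · have hbq : b = q ∨ b + 1 ≤ q := by
      rcases tri with h3 | h3 | h3
      · exact absurd h3 hqb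
      · exact Or.inl h3.symm
      · exact Or.inr h3
    have hbq' : b ≤ q := by rcases hbq with h3 | h3 <;> linarith
    have hpa : p < a := by linarith
    have gpa := hp.gap ha hpa
    obtain ⟨A0, A1, A2, B, r1, r2, r3, r4, r5, r6, r7⟩ := rule2 hE hM hp.lo gpa gab hbq hq.hi
      hc.lo hr.hi gcr h2
    refine Sp.symm (mk (A0 := A0) (A1 := A1) (A2 := A2) (B := B) (fun _ _ => r4) ?_ ?_ ?_
      (fun _ => r7) ?_ (fun _ _ => r1) ?_ (fun _ => r3))
    · rintro (h3 | h3) <;> exfalso <;> linarith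
    · intro _ h4
      rcases hbq with h5 | h5
      · exact absurd h5.symm h4
      · exact r5 h5
    · rintro (h3 | h3)
      · exfalso
        linarith
      · exact r6 h3.symm
    · intro h3
      exfalso
      linarith
    · intro _ h4
      rcases hbq with h5 | h5
      · exact absurd h5 h4
      · exact r2 h5

end Pool.Agent.K3C.A1core

namespace Pool.Agent.K3C

/-- case A1 (00|1, 00|1) -/
theorem caseA1 {N M a b c p q r : ℝ} (hB : Big N M) (ha : G M a) (hb : G M b) (hc : G M c)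
    (hp : G M p) (hq : G M q) (hr : G M r) (hab : a < b) (hpq : p < q)
    (h1 : a + b + c = M - 1 / 2) (h2 : p + q + r = M - 1 / 2) (hne : ¬ (a = p ∧ b = q)) :
    Sp N M {((0 : ℕ), a), (0, b), (1, c)} {((0 : ℕ), p), (0, q), (1, r)} := by
  rcases lt_trichotomy c r with hcr | hcr | hcr
  · exact A1core.main hB ha hb hc hp hq hr hab hpq h1 h2 hcr
  · subst hcr
    have hE := A1core.ex_of_big hB
    have hM : M = 2 * M / 2 := by ring
    rcases ha.tri hp with h3 | h3 | h3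
    · have hqb : q < b := by linarith
      obtain ⟨A0, A1, A2, B, r1, r2, r3, r4, r5⟩ := A1core.rule3 hE hM ha.lo h3 (hp.gap hq hpq)
        (hq.gap hb hqb) hb.hi hc.lo hc.hi h1
      refine A1core.mk (A0 := A0) (A1 := A1) (A2 := A2) (B := B) (fun _ _ => r1) ?_
        (fun _ _ => r2) ?_ (fun h => absurd rfl h) (fun _ => r5) (fun _ _ => r3) (fun _ _ => r4)
        (fun h => absurd rfl h)
      · rintro (h4 | h4) <;> exfalso <;> linarith
      · rintro (h4 | h4) <;> exfalso <;> linarith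
    · exfalso
      exact hne ⟨h3, by linarith⟩
    · have hqb : b < q := by linarith
      obtain ⟨A0, A1, A2, B, r1, r2, r3, r4, r5⟩ := A1core.rule3 hE hM hp.lo h3 (ha.gap hb hab)
        (hb.gap hq hqb) hq.hi hc.lo hc.hi h2
      refine Sp.symm (A1core.mk (A0 := A0) (A1 := A1) (A2 := A2) (B := B) (fun _ _ => r1) ?_
        (fun _ _ => r2) ?_ (fun h => absurd rfl h) (fun _ => r5) (fun _ _ => r3) (fun _ _ => r4)
        (fun h => absurd rfl h))
      · rintro (h4 | h4) <;> exfalso <;> linarith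
      · rintro (h4 | h4) <;> exfalso <;> linarith
  · exact Sp.symm (A1core.main hB hp hq hr ha hb hc hpq hab h2 h1 hcr)

end Pool.Agent.K3C
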