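import Pool.Agent.K3C.Defs

set_option autoImplicit false

namespace Pool.Agent.K3C

private lemma a2_small {N M x : ℝ} (hB : Big N M) (h : x ≤ -(1 / 24)) : N ^ x ≤ 1 / 1000 := by
  have h1 := hB.small h
  have h2 := hB.pos x
  have h3 := hB.1
  nlinarith

private lemma a2_abs {N M x A : ℝ} (hB : Big N M) (h : x ≤ -(1 / 24)) (hA : |A| ≤ 2 * (M + 1)) :
    -(1 / 500) ≤ A * N ^ x ∧ A * N ^ x ≤ 1 / 500 := by
  have h1 := hB.small h
  have h2 := hB.pos x
  have h3 := hB.1
  rw [abs_le] at hA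
  constructor
  · nlinarith [mul_le_mul_of_nonneg_right hA.1 h2.le]
  · nlinarith [mul_le_mul_of_nonneg_right hA.2 h2.le]

private lemma a2_val0 {N M : ℝ} (hB : Big N M) (A0 α β δ t : ℝ) :
    val N M A0 (-N ^ α) (N ^ β + δ) 1 (0, t) =
      A0 + t - N ^ (α + t - M) + N ^ (β - t - M) + δ * N ^ (-t - M) := by
  have h1 : N ^ α * N ^ (t - M) = N ^ (α + t - M) := by
    rw [← hB.add]
    congr 1
    ring
  have h2 : N ^ β * N ^ (-t - M) = N ^ (β - t - M) := by
    rw [← hB.add]
    congr 1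
    ring
  rw [val_zero, ← h1, ← h2]
  ring

private lemma a2_val2 {N M : ℝ} (hB : Big N M) (A0 α β δ t : ℝ) :
    val N M A0 (-N ^ α) (N ^ β + δ) 1 (2, t) =
      N ^ β + δ + A0 * N ^ (t - M) - N ^ (α - t - M) + t := by
  have h1 : N ^ α * N ^ (-t - M) = N ^ (α - t - M) := by
    rw [← hB.add]
    congr 1
    ring
  rw [val_two, ← h1]
  ring

private lemma a2_mk {N M a b c p q r A0 A1 A2 : ℝ}
    (ha : a ≠ p → a ≠ q → 0 < val N M A0 A1 A2 1 (0, a))
    (hb : b ≠ p → b ≠ q → 0 < val N M A0 A1 A2 1 (0, b))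
    (hc : c ≠ r → 0 < val N M A0 A1 A2 1 (2, c))
    (hp : p ≠ a → p ≠ b → val N M A0 A1 A2 1 (0, p) < 0)
    (hq : q ≠ a → q ≠ b → val N M A0 A1 A2 1 (0, q) < 0)
    (hr : r ≠ c → val N M A0 A1 A2 1 (2, r) < 0)
    (ha0 : a = p ∨ a = q → val N M A0 A1 A2 1 (0, a) = 0)
    (hb0 : b = p ∨ b = q → val N M A0 A1 A2 1 (0, b) = 0)
    (hc0 : c = r → val N M A0 A1 A2 1 (2, c) = 0) :
    Sp N M {((0 : ℕ), a), (0, b), (2, c)} {((0 : ℕ), p), (0, q), (2, r)} := by
  have m0 : ∀ t x y z : ℝ, ((0 : ℕ), t) ∈ ({((0 : ℕ), x), (0, y), (2, z)} : Set (ℕ × ℝ)) ↔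
      t = x ∨ t = y := by
    intro t x y z
    simp
  have m2 : ∀ t x y z : ℝ, ((2 : ℕ), t) ∈ ({((0 : ℕ), x), (0, y), (2, z)} : Set (ℕ × ℝ)) ↔
      t = z := by
    intro t x y z
    simp
  refine ⟨A0, A1, A2, 1, ?_, ?_, ?_⟩
  · intro v hv hv'
    rcases hv with rfl | rfl | rfl
    · rw [m0, not_or] at hv'
      exact ha hv'.1 hv'.2
    · rw [m0, not_or] at hv'
      exact hb hv'.1 hv'.2
    · rw [m2] at hv'
      exact hc hv'
  · intro v hv hv'
    rcases hv with rfl | rfl | rfl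
    · rw [m0, not_or] at hv'
      exact hp hv'.1 hv'.2
    · rw [m0, not_or] at hv'
      exact hq hv'.1 hv'.2
    · rw [m2] at hv'
      exact hr hv'
  · intro v hv hv'
    rcases hv with rfl | rfl | rfl
    · rw [m0] at hv'
      exact ha0 hv'
    · rw [m0] at hv'
      exact hb0 hv'
    · rw [m2] at hv'
      exact hc0 hv'

/-- `r < c`, `a < p` -/
private lemma a2_F {N M a b c p q r : ℝ} (hB : Big N M) (ha : G M a) (hb : G M b) (hc : G M c)
    (hp : G M p) (hq : G M q) (hr : G M r) (hab : a < b) (hpq : p < q)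
    (h1 : a + b + c = -M - 1 / 2) (hrc : r < c) (hap : a < p) :
    Sp N M {((0 : ℕ), a), (0, b), (2, c)} {((0 : ℕ), p), (0, q), (2, r)} := by
  have hM := hB.1
  have la := ha.lo
  have lb := hb.hi
  have lb' := hb.lo
  have lc := hc.lo
  have lc' := hc.hi
  have lr' := hr.hi
  have lq := hq.hi
  have gab := ha.gap hb hab
  have grc := hr.gap hc hrc
  obtain ⟨A0, hA, hA1, hA2, hA3⟩ : ∃ A0 : ℝ, (b = p ∨ b = q →
      A0 + b - N ^ (M - b - 1 / 2 + b - M) + N ^ (M + a + 1 / 2 - b - M) = 0) ∧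
      (b ≠ p → b ≠ q → A0 = -b + 1 / 2) ∧ -b - 1 / 1000 ≤ A0 ∧ A0 ≤ -b + 1 / 2 := by
    by_cases h : b = p ∨ b = q
    · refine ⟨-b + N ^ (M - b - 1 / 2 + b - M) - N ^ (M + a + 1 / 2 - b - M), fun _ => by ring,
        fun h2 h3 => absurd h (by tauto), ?_, ?_⟩
      · have e1 := hB.pos (M - b - 1 / 2 + b - M)
        have e2 := a2_small hB (x := M + a + 1 / 2 - b - M) (by linarith)
        linarith
      · have e1 := hB.pos (M + a + 1 / 2 - b - M)
        have e2 := a2_small hB (x := M - b - 1 / 2 + b - M) (by linarith)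
        linarith
    · exact ⟨-b + 1 / 2, fun h2 => absurd h2 h, fun _ _ => rfl, by linarith, le_refl _⟩
  have hAabs : |A0| ≤ 2 * (M + 1) := by
    rw [abs_le]
    constructor <;> linarith
  have hneg : ∀ t, G M t → a < t → t ≠ b →
      A0 + t - N ^ (M - b - 1 / 2 + t - M) + N ^ (M + a + 1 / 2 - t - M) < 0 := by
    intro t ht hat htb
    have g1 := ha.gap ht hat
    have lt := ht.hi
    have e1 := a2_small hB (x := M + a + 1 / 2 - t - M) (by linarith)
    rcases lt_or_gt_of_ne htb with h | h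
    · have g2 := ht.gap hb h
      have e2 := hB.pos (M - b - 1 / 2 + t - M)
      linarith
    · have g2 := hb.gap ht h
      have e2 := hB.big (x := M - b - 1 / 2 + t - M) (by linarith)
      linarith
  have hβ := hB.big (x := M + a + 1 / 2) (by linarith)
  refine a2_mk (A0 := A0) (A1 := -N ^ (M - b - 1 / 2)) (A2 := N ^ (M + a + 1 / 2) + 0)
    ?_ ?_ ?_ ?_ ?_ ?_ ?_ ?_ ?_
  · intro _ _
    rw [a2_val0 hB, zero_mul, add_zero]
    have e1 := a2_small hB (x := M - b - 1 / 2 + a - M) (by linarith)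
    have e2 := hB.big (x := M + a + 1 / 2 - a - M) (by linarith)
    linarith
  · intro n1 n2
    rw [a2_val0 hB, zero_mul, add_zero, hA1 n1 n2]
    have e1 := a2_small hB (x := M - b - 1 / 2 + b - M) (by linarith)
    have e2 := hB.pos (M + a + 1 / 2 - b - M)
    linarith
  · intro _
    rw [a2_val2 hB, add_zero]
    have e1 := (a2_abs hB (x := c - M) (by linarith) hAabs).1
    have e2 := hB.gap (x := M - b - 1 / 2 - c - M) (y := M + a + 1 / 2) (by linarith)
    have e3 := hB.pos (M - b - 1 / 2 - c - M)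
    nlinarith
  · intro n1 n2
    rw [a2_val0 hB, zero_mul, add_zero]
    exact hneg p hp hap n2
  · intro n1 n2
    rw [a2_val0 hB, zero_mul, add_zero]
    exact hneg q hq (hap.trans hpq) n2
  · intro _
    rw [a2_val2 hB, add_zero]
    have e1 := (a2_abs hB (x := r - M) (by linarith) hAabs).2
    have e2 := hB.gap (x := M + a + 1 / 2) (y := M - b - 1 / 2 - r - M) (by linarith)
    nlinarith
  · rintro (h | h)
    · exact absurd h hap.ne
    · exact absurd h (hap.trans hpq).ne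
  · intro h
    rw [a2_val0 hB, zero_mul, add_zero]
    exact hA h
  · intro h
    exact absurd h.symm hrc.ne

/-- `r < c`, `p ≤ a` -/
private lemma a2_G {N M a b c p q r : ℝ} (hB : Big N M) (ha : G M a) (hb : G M b) (hc : G M c)
    (hp : G M p) (hq : G M q) (hr : G M r) (hab : a < b) (hpq : p < q)
    (h1 : a + b + c = -M - 1 / 2) (h2 : p + q + r = -M - 1 / 2) (hrc : r < c) (hpa : p ≤ a) :
    Sp N M {((0 : ℕ), a), (0, b), (2, c)} {((0 : ℕ), p), (0, q), (2, r)} := by
  have hM := hB.1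
  have la := ha.lo
  have lp := hp.lo
  have la' := ha.hi
  have lc := hc.lo
  have lc' := hc.hi
  have lr' := hr.hi
  have lq := hq.hi
  have gab := ha.gap hb hab
  have grc := hr.gap hc hrc
  have hbq : b < q := by linarith
  have gbq := hb.gap hq hbq
  obtain ⟨A0, hA, hA1, hA2, hA3⟩ : ∃ A0 : ℝ, (a = p →
      A0 + a - N ^ (M - q + 1 / 6 + a - M) + N ^ (M + p - 1 / 12 - a - M) = 0) ∧
      (a ≠ p → A0 = -a + 1 / 2) ∧ -a - 1 / 1000 ≤ A0 ∧ A0 ≤ -a + 1 / 2 := by
    by_cases h : a = p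
    · refine ⟨-a + N ^ (M - q + 1 / 6 + a - M) - N ^ (M + p - 1 / 12 - a - M), fun _ => by ring,
        fun h2 => absurd h h2, ?_, ?_⟩
      · have e1 := hB.pos (M - q + 1 / 6 + a - M)
        have e2 := a2_small hB (x := M + p - 1 / 12 - a - M) (by linarith)
        linarith
      · have e1 := hB.pos (M + p - 1 / 12 - a - M)
        have e2 := a2_small hB (x := M - q + 1 / 6 + a - M) (by linarith)
        linarith
    · exact ⟨-a + 1 / 2, fun h2 => absurd h2 h, fun _ => rfl, by linarith, le_refl _⟩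
  have hAabs : |A0| ≤ 2 * (M + 1) := by
    rw [abs_le]
    constructor <;> linarith
  have hβ := hB.big (x := M + p - 1 / 12) (by linarith)
  refine a2_mk (A0 := A0) (A1 := -N ^ (M - q + 1 / 6)) (A2 := N ^ (M + p - 1 / 12) + 0)
    ?_ ?_ ?_ ?_ ?_ ?_ ?_ ?_ ?_
  · intro n1 _
    rw [a2_val0 hB, zero_mul, add_zero, hA1 n1]
    have e1 := a2_small hB (x := M - q + 1 / 6 + a - M) (by linarith)
    have e2 := hB.pos (M + p - 1 / 12 - a - M)
    linarith
  · intro _ _
    rw [a2_val0 hB, zero_mul, add_zero]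
    have e1 := a2_small hB (x := M - q + 1 / 6 + b - M) (by linarith)
    have e2 := hB.pos (M + p - 1 / 12 - b - M)
    linarith
  · intro _
    rw [a2_val2 hB, add_zero]
    have e1 := (a2_abs hB (x := c - M) (by linarith) hAabs).1
    have e2 := hB.gap (x := M - q + 1 / 6 - c - M) (y := M + p - 1 / 12) (by linarith)
    have e3 := hB.pos (M - q + 1 / 6 - c - M)
    nlinarith
  · intro n1 n2
    rw [a2_val0 hB, zero_mul, add_zero]
    have g1 := hp.gap ha (lt_of_le_of_ne hpa n1)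
    have e1 := hB.pos (M - q + 1 / 6 + p - M)
    have e2 := a2_small hB (x := M + p - 1 / 12 - p - M) (by linarith)
    linarith
  · intro n1 n2
    rw [a2_val0 hB, zero_mul, add_zero]
    have e1 := hB.big (x := M - q + 1 / 6 + q - M) (by linarith)
    have e2 := a2_small hB (x := M + p - 1 / 12 - q - M) (by linarith)
    linarith
  · intro _
    rw [a2_val2 hB, add_zero]
    have e1 := (a2_abs hB (x := r - M) (by linarith) hAabs).2
    have e2 := hB.gap (x := M + p - 1 / 12) (y := M - q + 1 / 6 - r - M) (by linarith)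
    nlinarith
  · intro h
    rw [a2_val0 hB, zero_mul, add_zero]
    rcases h with h | h
    · exact hA h
    · exact absurd h (hab.trans hbq).ne
  · rintro (h | h)
    · exact absurd h (lt_of_le_of_lt hpa hab).ne'
    · exact absurd h hbq.ne
  · intro h
    exact absurd h.symm hrc.ne

/-- `r = c`, `a < p` -/
private lemma a2_V {N M a b c p q r : ℝ} (hB : Big N M) (ha : G M a) (hb : G M b) (hc : G M c)
    (hp : G M p) (hq : G M q) (hab : a < b) (hpq : p < q)
    (h1 : a + b + c = -M - 1 / 2) (h2 : p + q + r = -M - 1 / 2) (hrc : r = c) (hap : a < p) :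
    Sp N M {((0 : ℕ), a), (0, b), (2, c)} {((0 : ℕ), p), (0, q), (2, r)} := by
  have hM := hB.1
  have la := ha.lo
  have lb := hb.hi
  have lb' := hb.lo
  have lc := hc.lo
  have lc' := hc.hi
  have gab := ha.gap hb hab
  have gap := ha.gap hp hap
  have hqb : q < b := by linarith
  have gqb := hq.gap hb hqb
  have lp := hp.lo
  have lq := hq.lo
  have hA0 : |(-b + 1 / 2 : ℝ)| ≤ 2 * (M + 1) := by
    rw [abs_le]
    constructor <;> linarith
  have hd := a2_abs hB (x := c - M) (by linarith) hA0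
  obtain ⟨δ, hδ⟩ : ∃ δ : ℝ, δ = -c - (-b + 1 / 2) * N ^ (c - M) := ⟨_, rfl⟩
  have hδ' : |δ| ≤ 2 * (M + 1) := by
    rw [abs_le]
    constructor <;> linarith [hd.1, hd.2]
  have hneg : ∀ t, G M t → a + 1 ≤ t → t + 1 ≤ b → (-b + 1 / 2) + t -
      N ^ (M - b - 1 / 3 + t - M) + N ^ (M + a + 1 / 6 - t - M) + δ * N ^ (-t - M) < 0 := by
    intro t ht hat htb
    have e1 := a2_small hB (x := M + a + 1 / 6 - t - M) (by linarith)
    have e2 := hB.pos (M - b - 1 / 3 + t - M)
    have e3 := (a2_abs hB (x := -t - M) (by linarith [ht.lo]) hδ').2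
    linarith
  refine a2_mk (A0 := -b + 1 / 2) (A1 := -N ^ (M - b - 1 / 3)) (A2 := N ^ (M + a + 1 / 6) + δ)
    ?_ ?_ ?_ ?_ ?_ ?_ ?_ ?_ ?_
  · intro _ _
    rw [a2_val0 hB]
    have e1 := a2_small hB (x := M - b - 1 / 3 + a - M) (by linarith)
    have e2 := hB.big (x := M + a + 1 / 6 - a - M) (by linarith)
    have e3 := (a2_abs hB (x := -a - M) (by linarith) hδ').1
    linarith
  · intro _ _
    rw [a2_val0 hB]
    have e1 := a2_small hB (x := M - b - 1 / 3 + b - M) (by linarith)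
    have e2 := hB.pos (M + a + 1 / 6 - b - M)
    have e3 := (a2_abs hB (x := -b - M) (by linarith) hδ').1
    linarith
  · intro h
    exact absurd hrc.symm h
  · intro _ _
    rw [a2_val0 hB]
    exact hneg p hp gap (by linarith)
  · intro _ _
    rw [a2_val0 hB]
    exact hneg q hq (by linarith) gqb
  · intro h
    exact absurd hrc h
  · rintro (h | h)
    · exact absurd h hap.ne
    · exact absurd h (hap.trans hpq).ne
  · rintro (h | h)
    · exact absurd h (hpq.trans hqb).ne'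
    · exact absurd h hqb.ne'
  · intro _
    rw [a2_val2 hB, hδ]
    have e1 : M - b - 1 / 3 - c - M = M + a + 1 / 6 := by linarith
    rw [e1]
    ring

/-- case A2 (00|2, 00|2) -/
theorem caseA2 {N M a b c p q r : ℝ} (hB : Big N M) (ha : G M a) (hb : G M b) (hc : G M c)
    (hp : G M p) (hq : G M q) (hr : G M r) (hab : a < b) (hpq : p < q)
    (h1 : a + b + c = -M - 1 / 2) (h2 : p + q + r = -M - 1 / 2) (hne : ¬ (a = p ∧ b = q)) :
    Sp N M {((0 : ℕ), a), (0, b), (2, c)} {((0 : ℕ), p), (0, q), (2, r)} := by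
  have main : ∀ {a b c p q r : ℝ}, G M a → G M b → G M c → G M p → G M q → G M r → a < b → p < q →
      a + b + c = -M - 1 / 2 → p + q + r = -M - 1 / 2 → r < c →
      Sp N M {((0 : ℕ), a), (0, b), (2, c)} {((0 : ℕ), p), (0, q), (2, r)} := by
    intro a b c p q r ha hb hc hp hq hr hab hpq h1 h2 hrc
    rcases lt_or_ge a p with h | h
    · exact a2_F hB ha hb hc hp hq hr hab hpq h1 hrc h
    · exact a2_G hB ha hb hc hp hq hr hab hpq h1 h2 hrc h
  rcases lt_trichotomy r c with h | h | h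
  · exact main ha hb hc hp hq hr hab hpq h1 h2 h
  · rcases lt_trichotomy a p with h' | h' | h'
    · exact a2_V hB ha hb hc hp hq hab hpq h1 h2 h h'
    · exact absurd ⟨h', by linarith⟩ hne
    · exact (a2_V hB hp hq hr ha hb hpq hab h2 h1 h.symm h').symm
  · exact (main hp hq hr ha hb hc hpq hab h2 h1 h).symm

end Pool.Agent.K3C
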