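import Pool.Agent.K3C.Defs

/-! Case A3 of the separation lemmas (00|1, 00|2). -/

set_option autoImplicit false

namespace Pool.Agent.K3C

/-- small powers -/
private theorem a3_small' {N M x : ℝ} (h : Big N M) (hx : x ≤ -(1 / 24)) : N ^ x ≤ 1 / 1000 := by
  have h1 := h.small hx
  have h0 : 0 ≤ N ^ x := (h.pos x).le
  have hM := h.1
  nlinarith

/-- powers with nonpositive exponents -/
private theorem a3_le_one {N M x : ℝ} (h : Big N M) (hx : x ≤ 0) : N ^ x ≤ 1 :=
  Real.rpow_le_one_of_one_le_of_nonpos h.2.1.le hx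

/-- The sign at the third vertex. -/
private theorem a3_g {N M K κ κ' A B y θ w : ℝ} (h : Big N M) (hκ : 1 / 4 ≤ κ) (hκ0 : 0 ≤ κ')
    (hκ1 : κ' ≤ 1) (hA : |A| ≤ M + 1) (hB : |B| ≤ 1) (hy : |y| ≤ M) (hθ : 1 / 6 ≤ θ)
    (hK0 : 0 ≤ K) (hK : K ≤ 1) (hw : w + 1 / 4 ≤ θ) :
    0 < κ * N ^ θ - κ' * N ^ w + A * K + B * y := by
  have hM := h.1
  have h1 := h.big (x := θ) (by linarith)
  have h2 : N ^ w ≤ 1 / 1000 * N ^ θ := by
    have h3 : N ^ w = N ^ (w - θ) * N ^ θ := by
      rw [← h.add]
      congr 1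
      ring
    rw [h3]
    exact mul_le_mul_of_nonneg_right (a3_small' h (by linarith)) (h.pos _).le
  have h0 : 0 ≤ N ^ w := (h.pos _).le
  have h4 : κ' * N ^ w ≤ N ^ w := by nlinarith
  have h5 : 1 / 4 * N ^ θ ≤ κ * N ^ θ :=
    mul_le_mul_of_nonneg_right hκ (h.pos _).le
  have h6 : |A * K| ≤ M + 1 := by
    rw [abs_mul, abs_of_nonneg hK0]
    nlinarith [abs_nonneg A]
  have h7 : |B * y| ≤ M := by
    rw [abs_mul]
    nlinarith [abs_nonneg B, abs_nonneg y]
  have h8 := neg_abs_le (A * K)
  have h9 := neg_abs_le (B * y)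
  nlinarith

/-- Assembly. -/
private theorem a3_sp {N M a b c p q r A0 A1 A2 B : ℝ}
    (fa : a ≠ p → a ≠ q → 0 < A0 + A1 * N ^ (a - M) + A2 * N ^ (-a - M) + B * a)
    (fb : b ≠ p → b ≠ q → 0 < A0 + A1 * N ^ (b - M) + A2 * N ^ (-b - M) + B * b)
    (fp : a ≠ p → b ≠ p → A0 + A1 * N ^ (p - M) + A2 * N ^ (-p - M) + B * p < 0)
    (fq : a ≠ q → b ≠ q → A0 + A1 * N ^ (q - M) + A2 * N ^ (-q - M) + B * q < 0)
    (ea : a = p ∨ a = q → A0 + A1 * N ^ (a - M) + A2 * N ^ (-a - M) + B * a = 0)
    (eb : b = p ∨ b = q → A0 + A1 * N ^ (b - M) + A2 * N ^ (-b - M) + B * b = 0)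
    (gc : 0 < A1 + A2 * N ^ (c - M) + A0 * N ^ (-c - M) + B * c)
    (gr : A2 + A0 * N ^ (r - M) + A1 * N ^ (-r - M) + B * r < 0) :
    Sp N M {((0 : ℕ), a), (0, b), (1, c)} {((0 : ℕ), p), (0, q), (2, r)} := by
  refine ⟨A0, A1, A2, B, ?_, ?_, ?_⟩
  · rintro v hv hv'
    simp only [Set.mem_insert_iff, Set.mem_singleton_iff, Prod.mk.injEq, not_or, not_and] at hv hv'
    rcases hv with rfl | rfl | rfl
    · rw [val_zero]
      exact fa (fun e => hv'.1 (by rw [e])) (fun e => hv'.2.1 (by rw [e]))
    · rw [val_zero]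
      exact fb (fun e => hv'.1 (by rw [e])) (fun e => hv'.2.1 (by rw [e]))
    · rw [val_one]
      exact gc
  · rintro v hv hv'
    simp only [Set.mem_insert_iff, Set.mem_singleton_iff, Prod.mk.injEq, not_or, not_and] at hv hv'
    rcases hv with rfl | rfl | rfl
    · rw [val_zero]
      exact fp (fun e => hv'.1 (by rw [e])) (fun e => hv'.2.1 (by rw [e]))
    · rw [val_zero]
      exact fq (fun e => hv'.1 (by rw [e])) (fun e => hv'.2.1 (by rw [e]))
    · rw [val_two]
      exact gr
  · rintro v hv hv'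
    simp only [Set.mem_insert_iff, Set.mem_singleton_iff] at hv hv'
    rcases hv with rfl | rfl | rfl
    · rw [val_zero]
      refine ea ?_
      simpa using hv'
    · rw [val_zero]
      refine eb ?_
      simpa using hv'
    · simp at hv'

/-- The planes `A1 = κ1 N ^ (M - θ2)`, `A2 = - κ2 N ^ (M + θ1)`. -/
private theorem a3_main {N M a b c p q r A0 B κ1 κ2 θ1 θ2 : ℝ} (h : Big N M)
    (hc : G M c) (hr : G M r)
    (h1 : 1 / 4 ≤ κ1) (h1' : κ1 ≤ 1) (h2 : 1 / 4 ≤ κ2) (h2' : κ2 ≤ 1)
    (hA : |A0| ≤ M + 1) (hB : |B| ≤ 1) (hθ2 : θ2 ≤ M - 1 / 6) (hθ1 : 1 / 6 - M ≤ θ1)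
    (hs : θ1 + θ2 + c ≤ M - 1 / 4) (hs' : 1 / 4 - M ≤ θ1 + θ2 + r)
    (fa : a ≠ p → a ≠ q → 0 < A0 + κ1 * N ^ (a - θ2) - κ2 * N ^ (θ1 - a) + B * a)
    (fb : b ≠ p → b ≠ q → 0 < A0 + κ1 * N ^ (b - θ2) - κ2 * N ^ (θ1 - b) + B * b)
    (fp : a ≠ p → b ≠ p → A0 + κ1 * N ^ (p - θ2) - κ2 * N ^ (θ1 - p) + B * p < 0)
    (fq : a ≠ q → b ≠ q → A0 + κ1 * N ^ (q - θ2) - κ2 * N ^ (θ1 - q) + B * q < 0)
    (ea : a = p ∨ a = q → A0 + κ1 * N ^ (a - θ2) - κ2 * N ^ (θ1 - a) + B * a = 0)
    (eb : b = p ∨ b = q → A0 + κ1 * N ^ (b - θ2) - κ2 * N ^ (θ1 - b) + B * b = 0) :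
    Sp N M {((0 : ℕ), a), (0, b), (1, c)} {((0 : ℕ), p), (0, q), (2, r)} := by
  have hc1 := hc.lo
  have hc2 := hc.hi
  have hr1 := hr.lo
  have hr2 := hr.hi
  have key : ∀ t : ℝ, A0 + κ1 * N ^ (M - θ2) * N ^ (t - M) + -κ2 * N ^ (M + θ1) * N ^ (-t - M)
      + B * t = A0 + κ1 * N ^ (t - θ2) - κ2 * N ^ (θ1 - t) + B * t := by
    intro t
    have e1 : N ^ (t - θ2) = N ^ (M - θ2) * N ^ (t - M) := by
      rw [← h.add]
      congr 1
      ring
    have e2 : N ^ (θ1 - t) = N ^ (M + θ1) * N ^ (-t - M) := by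
      rw [← h.add]
      congr 1
      ring
    rw [e1, e2]
    ring
  refine a3_sp (A0 := A0) (A1 := κ1 * N ^ (M - θ2)) (A2 := -κ2 * N ^ (M + θ1)) (B := B)
    (fun x y => by rw [key]; exact fa x y) (fun x y => by rw [key]; exact fb x y)
    (fun x y => by rw [key]; exact fp x y) (fun x y => by rw [key]; exact fq x y)
    (fun x => by rw [key]; exact ea x) (fun x => by rw [key]; exact eb x) ?_ ?_
  · have e := a3_g (K := N ^ (-c - M)) (A := A0) (B := B) (y := c) (θ := M - θ2) (w := θ1 + c)
      h h1 (by linarith) h2' hA hB (abs_le.2 ⟨by linarith, by linarith⟩) (by linarith)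
      (h.pos _).le (a3_le_one h (by linarith)) (by linarith)
    have e2 : N ^ (θ1 + c) = N ^ (M + θ1) * N ^ (c - M) := by
      rw [← h.add]
      congr 1
      ring
    rw [e2] at e
    nlinarith
  · have e := a3_g (K := N ^ (r - M)) (A := -A0) (B := -B) (y := r) (θ := M + θ1) (w := -θ2 - r)
      h h2 (by linarith) h1' (by rwa [abs_neg]) (by rwa [abs_neg])
      (abs_le.2 ⟨by linarith, by linarith⟩) (by linarith)
      (h.pos _).le (a3_le_one h (by linarith)) (by linarith)
    have e2 : N ^ (-θ2 - r) = N ^ (M - θ2) * N ^ (-r - M) := by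
      rw [← h.add]
      congr 1
      ring
    rw [e2] at e
    nlinarith

/-- case A3 (00|1, 00|2) -/
theorem caseA3 {N M a b c p q r : ℝ} (hB : Big N M) (ha : G M a) (hb : G M b) (hc : G M c)
    (hp : G M p) (hq : G M q) (hr : G M r) (hab : a < b) (hpq : p < q)
    (h1 : a + b + c = M - 1 / 2) (h2 : p + q + r = -M - 1 / 2) :
    Sp N M {((0 : ℕ), a), (0, b), (1, c)} {((0 : ℕ), p), (0, q), (2, r)} := by
  have ha1 := ha.lo
  have ha2 := ha.hi
  have hb1 := hb.lo
  have hb2 := hb.hi
  have hc1 := hc.lo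
  have hc2 := hc.hi
  have hp1 := hp.lo
  have hp2 := hp.hi
  have hq1 := hq.lo
  have hq2 := hq.hi
  have hr1 := hr.lo
  have hr2 := hr.hi
  have gab := ha.gap hb hab
  have gpq := hp.gap hq hpq
  have hM := hB.1
  rcases hq.tri ha with haq | haq | haq
  · -- q < a
    refine a3_main (A0 := 0) (B := 0) (κ1 := 1) (κ2 := 1) (θ1 := (q + a) / 2) (θ2 := (q + a) / 2)
      hB hc hr (by norm_num) le_rfl (by norm_num) le_rfl (by rw [abs_zero]; linarith)
      (by norm_num) (by linarith) (by linarith) (by linarith) (by linarith)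
      ?_ ?_ ?_ ?_ ?_ ?_
    · intro _ _
      have := hB.strict (x := (q + a) / 2 - a) (y := a - (q + a) / 2) (by linarith)
      linarith
    · intro _ _
      have := hB.strict (x := (q + a) / 2 - b) (y := b - (q + a) / 2) (by linarith)
      linarith
    · intro _ _
      have := hB.strict (x := p - (q + a) / 2) (y := (q + a) / 2 - p) (by linarith)
      linarith
    · intro _ _
      have := hB.strict (x := q - (q + a) / 2) (y := (q + a) / 2 - q) (by linarith)
      linarith
    · rintro (e | e) <;> exact absurd e (by intro e; linarith)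
    · rintro (e | e) <;> exact absurd e (by intro e; linarith)
  · -- q = a
    subst haq
    refine a3_main (A0 := 0) (B := 0) (κ1 := 1) (κ2 := 1) (θ1 := q) (θ2 := q)
      hB hc hr (by norm_num) le_rfl (by norm_num) le_rfl (by rw [abs_zero]; linarith)
      (by norm_num) (by linarith) (by linarith) (by linarith) (by linarith)
      ?_ ?_ ?_ ?_ ?_ ?_
    · intro _ e
      exact absurd rfl e
    · intro _ _
      have := hB.strict (x := q - b) (y := b - q) (by linarith)
      linarith
    · intro _ _
      have := hB.strict (x := p - q) (y := q - p) (by linarith)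
      linarith
    · intro e _
      exact absurd rfl e
    · intro _
      ring
    · rintro (e | e) <;> exact absurd e (by intro e; linarith)
  rcases hp.tri ha with hpa | hpa | hpa
  · -- p < a < q
    rcases hb.tri hq with hbq | hbq | hbq
    · -- b < q
      refine a3_main (A0 := (b + q) / 2) (B := -1) (κ1 := 1 / 4) (κ2 := 1) (θ1 := p + 3 / 4)
        (θ2 := q) hB hc hr le_rfl (by norm_num) (by norm_num) le_rfl
        (abs_le.2 ⟨by linarith, by linarith⟩) (by norm_num) (by linarith) (by linarith)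
        (by linarith) (by linarith) ?_ ?_ ?_ ?_ ?_ ?_
      · intro _ _
        have e1 := hB.pos (a - q)
        have e2 := a3_small' hB (x := p + 3 / 4 - a) (by linarith)
        linarith
      · intro _ _
        have e1 := hB.pos (b - q)
        have e2 := a3_small' hB (x := p + 3 / 4 - b) (by linarith)
        linarith
      · intro _ _
        have e1 := a3_le_one hB (x := p - q) (by linarith)
        have e2 := hB.big (x := p + 3 / 4 - p) (by linarith)
        linarith
      · intro _ _
        have e1 := a3_le_one hB (x := q - q) (by linarith)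
        have e2 := hB.pos (p + 3 / 4 - q)
        linarith
      · rintro (e | e) <;> exact absurd e (by intro e; linarith)
      · rintro (e | e) <;> exact absurd e (by intro e; linarith)
    · -- b = q
      subst hbq
      have s1 := a3_small' hB (x := p + 3 / 4 - b) (by linarith)
      have s2 := hB.pos (p + 3 / 4 - b)
      refine a3_main (A0 := b - 1 / 4 + N ^ (p + 3 / 4 - b)) (B := -1) (κ1 := 1 / 4) (κ2 := 1)
        (θ1 := p + 3 / 4) (θ2 := b) hB hc hr le_rfl (by norm_num) (by norm_num) le_rfl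
        (abs_le.2 ⟨by linarith, by linarith⟩) (by norm_num) (by linarith) (by linarith)
        (by linarith) (by linarith) ?_ ?_ ?_ ?_ ?_ ?_
      · intro _ _
        have e1 := hB.pos (a - b)
        have e2 := a3_small' hB (x := p + 3 / 4 - a) (by linarith)
        linarith
      · intro _ e
        exact absurd rfl e
      · intro _ _
        have e1 := a3_le_one hB (x := p - b) (by linarith)
        have e2 := hB.big (x := p + 3 / 4 - p) (by linarith)
        linarith
      · intro _ e
        exact absurd rfl e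
      · rintro (e | e) <;> exact absurd e (by intro e; linarith)
      · intro _
        rw [sub_self, Real.rpow_zero]
        ring
    · -- q < b
      refine a3_main (A0 := (a + q) / 2) (B := -1) (κ1 := 1) (κ2 := 1) (θ1 := (p + a) / 2)
        (θ2 := (q + b) / 2) hB hc hr (by norm_num) le_rfl (by norm_num) le_rfl
        (abs_le.2 ⟨by linarith, by linarith⟩) (by norm_num) (by linarith) (by linarith)
        (by linarith) (by linarith) ?_ ?_ ?_ ?_ ?_ ?_
      · intro _ _
        have e1 := hB.pos (a - (q + b) / 2)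
        have e2 := a3_small' hB (x := (p + a) / 2 - a) (by linarith)
        linarith
      · intro _ _
        have e1 := hB.big (x := b - (q + b) / 2) (by linarith)
        have e2 := a3_small' hB (x := (p + a) / 2 - b) (by linarith)
        linarith
      · intro _ _
        have e1 := a3_small' hB (x := p - (q + b) / 2) (by linarith)
        have e2 := hB.big (x := (p + a) / 2 - p) (by linarith)
        linarith
      · intro _ _
        have e1 := a3_small' hB (x := q - (q + b) / 2) (by linarith)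
        have e2 := hB.pos ((p + a) / 2 - q)
        linarith
      · rintro (e | e) <;> exact absurd e (by intro e; linarith)
      · rintro (e | e) <;> exact absurd e (by intro e; linarith)
  · -- p = a
    subst hpa
    have hqb : q + 1 ≤ b := by
      rcases hq.tri hb with e | e | e
      · exact e
      · linarith
      · linarith
    have s1 := a3_small' hB (x := p - (b - 1 / 4)) (by linarith)
    have s2 := hB.pos (p - (b - 1 / 4))
    refine a3_main (A0 := p + 1 / 4 - N ^ (p - (b - 1 / 4))) (B := -1) (κ1 := 1) (κ2 := 1 / 4)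
      (θ1 := p) (θ2 := b - 1 / 4) hB hc hr (by norm_num) le_rfl le_rfl (by norm_num)
      (abs_le.2 ⟨by linarith, by linarith⟩) (by norm_num) (by linarith) (by linarith)
      (by linarith) (by linarith) ?_ ?_ ?_ ?_ ?_ ?_
    · intro e _
      exact absurd rfl e
    · intro _ _
      have e1 := hB.big (x := b - (b - 1 / 4)) (by linarith)
      have e2 := a3_small' hB (x := p - b) (by linarith)
      linarith
    · intro e _
      exact absurd rfl e
    · intro _ _
      have e1 := a3_small' hB (x := q - (b - 1 / 4)) (by linarith)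
      have e2 := hB.pos (p - q)
      linarith
    · intro _
      rw [sub_self, Real.rpow_zero]
      ring
    · rintro (e | e) <;> exact absurd e (by intro e; linarith)
  · -- a < p
    have hqb : q + 1 ≤ b := by
      rcases hq.tri hb with e | e | e
      · exact e
      · linarith
      · linarith
    refine a3_main (A0 := (a + p) / 2) (B := -1) (κ1 := 1) (κ2 := 1 / 4)
      (θ1 := a) (θ2 := b - 1 / 4) hB hc hr (by norm_num) le_rfl le_rfl (by norm_num)
      (abs_le.2 ⟨by linarith, by linarith⟩) (by norm_num) (by linarith) (by linarith)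
      (by linarith) (by linarith) ?_ ?_ ?_ ?_ ?_ ?_
    · intro _ _
      have e1 := hB.pos (a - (b - 1 / 4))
      rw [sub_self, Real.rpow_zero]
      linarith
    · intro _ _
      have e1 := hB.big (x := b - (b - 1 / 4)) (by linarith)
      have e2 := a3_small' hB (x := a - b) (by linarith)
      linarith
    · intro _ _
      have e1 := a3_small' hB (x := p - (b - 1 / 4)) (by linarith)
      have e2 := hB.pos (a - p)
      linarith
    · intro _ _
      have e1 := a3_small' hB (x := q - (b - 1 / 4)) (by linarith)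
      have e2 := hB.pos (a - q)
      linarith
    · rintro (e | e) <;> exact absurd e (by intro e; linarith)
    · rintro (e | e) <;> exact absurd e (by intro e; linarith)

end Pool.Agent.K3C
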