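import Pool.Agent.K3C.Defs

/-! Case B1 of the separation: the triangles `(0,a) (0,b) (1,c)` and `(1,p) (1,q) (2,r)`. -/

set_option autoImplicit false

namespace Pool.Agent.K3C


/-- a bounded multiple of a small power is small -/
private lemma b1_sm {N M X K e : ℝ} (h : Big N M) (he : e ≤ -(1 / 24)) (hX : |X| ≤ K * (M + 1)) :
    |X * N ^ e| ≤ K / 1000 := by
  have hM := h.1
  have hN : 0 < N := by linarith [h.2.1]
  have h0 : (0 : ℝ) < M + 1 := by linarith
  have h1 : N ^ e ≤ 1 / (1000 * (M + 1)) := by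
    rw [le_div_iff₀ (by linarith)]; exact h.small he
  have hp : 0 < N ^ e := Real.rpow_pos_of_pos hN e
  rw [abs_mul, abs_of_pos hp]
  calc |X| * N ^ e ≤ (K * (M + 1)) * (1 / (1000 * (M + 1))) :=
        mul_le_mul hX h1 hp.le ((abs_nonneg _).trans hX)
    _ = K / 1000 := by field_simp

private lemma b1_val0 (N M A0 A1 A2 B t : ℝ) : val N M A0 A1 A2 B (0, t) =
    A0 + A1 * N ^ (t - M) + A2 * N ^ (-t - M) + B * t := by simp

private lemma b1_val1 (N M A0 A1 A2 B t : ℝ) : val N M A0 A1 A2 B (1, t) =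
    A1 + A2 * N ^ (t - M) + A0 * N ^ (-t - M) + B * t := by simp

private lemma b1_val2 (N M A0 A1 A2 B t : ℝ) : val N M A0 A1 A2 B (2, t) =
    A2 + A0 * N ^ (t - M) + A1 * N ^ (-t - M) + B * t := by simp

private lemma b1_mk {N M a b c p q r : ℝ} (A0 A1 A2 B : ℝ)
    (ha : 0 < val N M A0 A1 A2 B (0, a)) (hb : 0 < val N M A0 A1 A2 B (0, b))
    (hr : val N M A0 A1 A2 B (2, r) < 0)
    (hc : c ≠ p → c ≠ q → 0 < val N M A0 A1 A2 B (1, c))
    (hp : p ≠ c → val N M A0 A1 A2 B (1, p) < 0)
    (hq : q ≠ c → val N M A0 A1 A2 B (1, q) < 0)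
    (hcp : c = p → val N M A0 A1 A2 B (1, c) = 0)
    (hcq : c = q → val N M A0 A1 A2 B (1, c) = 0) :
    Sp N M {((0 : ℕ), a), (0, b), (1, c)} {((1 : ℕ), p), (1, q), (2, r)} := by
  refine ⟨A0, A1, A2, B, ?_, ?_, ?_⟩
  · intro v hv hv'
    simp only [Set.mem_insert_iff, Set.mem_singleton_iff] at hv hv'
    rcases hv with rfl | rfl | rfl
    · exact ha
    · exact hb
    · apply hc
      · rintro rfl; exact hv' (Or.inl rfl)
      · rintro rfl; exact hv' (Or.inr (Or.inl rfl))
  · intro v hv hv'
    simp only [Set.mem_insert_iff, Set.mem_singleton_iff] at hv hv'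
    rcases hv with rfl | rfl | rfl
    · apply hp; rintro rfl; exact hv' (Or.inr (Or.inr rfl))
    · apply hq; rintro rfl; exact hv' (Or.inr (Or.inr rfl))
    · exact hr
  · intro v hv hv'
    simp only [Set.mem_insert_iff, Set.mem_singleton_iff] at hv hv'
    rcases hv with rfl | rfl | rfl
    · rcases hv' with h | h | h <;> simp [Prod.ext_iff] at h
    · rcases hv' with h | h | h <;> simp [Prod.ext_iff] at h
    · rcases hv' with h | h | h
      · exact hcp (by simpa [Prod.ext_iff] using h)
      · exact hcq (by simpa [Prod.ext_iff] using h)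
      · simp [Prod.ext_iff] at h

/-- **Case B1.** -/
theorem caseB1 {N M a b c p q r : ℝ} (hB : Big N M) (ha : G M a) (hb : G M b) (hc : G M c)
    (hp : G M p) (hq : G M q) (hr : G M r) (hab : a < b) (hpq : p < q)
    (h1 : a + b + c = M - 1 / 2) (h2 : p + q + r = M - 1 / 2) :
    Sp N M {((0 : ℕ), a), (0, b), (1, c)} {((1 : ℕ), p), (1, q), (2, r)} := by
  have h := hB
  have hM := h.1
  have hN : 0 < N := by linarith [h.2.1]
  have la := ha.lo; have ua := ha.hi; have lb := hb.lo; have ub := hb.hi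
  have lc := hc.lo; have uc := hc.hi; have lp := hp.lo; have up := hp.hi
  have lq := hq.lo; have uq := hq.hi; have lr := hr.lo; have ur := hr.hi
  -- generic bounds
  have P : ∀ X K t : ℝ, G M t → |X| ≤ K * (M + 1) → |X * N ^ (t - M)| ≤ K / 1000 := by
    intro X K t ht hX
    exact b1_sm h (by linarith [ht.hi]) hX
  have Q : ∀ X K t : ℝ, G M t → |X| ≤ K * (M + 1) → |X * N ^ (-t - M)| ≤ K / 1000 := by
    intro X K t ht hX
    exact b1_sm h (by linarith [ht.lo]) hX
  have hA : |2 * (M + 1)| ≤ 2 * (M + 1) := by rw [abs_of_pos (by linarith)]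
  have hA' : |-(2 * (M + 1))| ≤ 2 * (M + 1) := by rw [abs_neg]; exact hA
  rcases lt_trichotomy c p with hcp | hcp | hcp
  · -- c < p < q
    have g := hc.gap hp hcp
    have hX : |(c + p) / 2| ≤ 1 * (M + 1) := by
      rw [abs_le]; constructor <;> linarith
    apply b1_mk (2 * (M + 1)) ((c + p) / 2) (-(2 * (M + 1))) (-1)
    · rw [b1_val0]
      have e1 := abs_le.1 (P _ _ a ha hX); have e2 := abs_le.1 (Q _ _ a ha hA')
      linarith [e1.1, e2.1]
    · rw [b1_val0]
      have e1 := abs_le.1 (P _ _ b hb hX); have e2 := abs_le.1 (Q _ _ b hb hA')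
      linarith [e1.1, e2.1]
    · rw [b1_val2]
      have e1 := abs_le.1 (P _ _ r hr hA); have e2 := abs_le.1 (Q _ _ r hr hX)
      linarith [e1.2, e2.2]
    · intro _ _
      rw [b1_val1]
      have e1 := abs_le.1 (P _ _ c hc hA'); have e2 := abs_le.1 (Q _ _ c hc hA)
      linarith [e1.1, e2.1]
    · intro _
      rw [b1_val1]
      have e1 := abs_le.1 (P _ _ p hp hA'); have e2 := abs_le.1 (Q _ _ p hp hA)
      linarith [e1.2, e2.2]
    · intro _
      rw [b1_val1]
      have e1 := abs_le.1 (P _ _ q hq hA'); have e2 := abs_le.1 (Q _ _ q hq hA)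
      linarith [e1.2, e2.2]
    · intro hh; exact absurd hh hcp.ne
    · intro hh; linarith
  · -- c = p
    subst hcp
    have g := hc.gap hq hpq
    have f1 := abs_le.1 (P _ _ c hc hA); have f2 := abs_le.1 (Q _ _ c hc hA)
    set X := c + 2 * (M + 1) * N ^ (c - M) - 2 * (M + 1) * N ^ (-c - M) with hXdef
    have hX : |X| ≤ 1 * (M + 1) := by
      rw [abs_le]; constructor
      · linarith [f1.1, f2.2]
      · linarith [f1.2, f2.1]
    apply b1_mk (2 * (M + 1)) X (-(2 * (M + 1))) (-1)
    · rw [b1_val0]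
      have e1 := abs_le.1 (P _ _ a ha hX); have e2 := abs_le.1 (Q _ _ a ha hA')
      linarith [e1.1, e2.1]
    · rw [b1_val0]
      have e1 := abs_le.1 (P _ _ b hb hX); have e2 := abs_le.1 (Q _ _ b hb hA')
      linarith [e1.1, e2.1]
    · rw [b1_val2]
      have e1 := abs_le.1 (P _ _ r hr hA); have e2 := abs_le.1 (Q _ _ r hr hX)
      linarith [e1.2, e2.2]
    · intro hh _; exact absurd rfl hh
    · intro hh; exact absurd rfl hh
    · intro _
      rw [b1_val1]
      have e1 := abs_le.1 (P _ _ q hq hA'); have e2 := abs_le.1 (Q _ _ q hq hA)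
      linarith [e1.2, e2.2, f1.2, f2.1]
    · intro _
      rw [b1_val1, hXdef]; ring
    · intro hh; exact absurd hh hpq.ne
  · rcases lt_trichotomy c q with hcq | hcq | hcq
    · -- p < c < q
      have g1 := hp.gap hc hcp
      have g2 := hc.gap hq hcq
      have hX : |-((p + c) / 2)| ≤ 1 * (M + 1) := by
        rw [abs_neg, abs_le]; constructor <;> linarith
      have hmul : ∀ t s : ℝ, -(N ^ (M - (q + c) / 2)) * N ^ s = -(N ^ (M - (q + c) / 2 + s)) := by
        intro t s; rw [neg_mul, ← Real.rpow_add hN]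
      have sm : ∀ e : ℝ, e ≤ -(1 / 24) → 0 < N ^ e ∧ N ^ e ≤ 1 / 1000 := by
        intro e he
        have hp0 : 0 < N ^ e := Real.rpow_pos_of_pos hN e
        have hs := h.small he
        refine ⟨hp0, ?_⟩
        nlinarith [mul_nonneg hp0.le h.M_pos.le]
      apply b1_mk (2 * (M + 1)) (-((p + c) / 2)) (-(N ^ (M - (q + c) / 2))) 1
      · rw [b1_val0, hmul 0]
        have e1 := abs_le.1 (P _ _ a ha hX)
        have e2 := sm (M - (q + c) / 2 + (-a - M)) (by linarith)
        linarith [e1.1, e2.2]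
      · rw [b1_val0, hmul 0]
        have e1 := abs_le.1 (P _ _ b hb hX)
        have e2 := sm (M - (q + c) / 2 + (-b - M)) (by linarith)
        linarith [e1.1, e2.2]
      · rw [b1_val2]
        have e1 := abs_le.1 (P _ _ r hr hA); have e2 := abs_le.1 (Q _ _ r hr hX)
        have e3 := h.big (x := M - (q + c) / 2) (by linarith)
        linarith [e1.2, e2.2]
      · intro _ _
        rw [b1_val1, hmul 0]
        have e1 := abs_le.1 (Q _ _ c hc hA)
        have e2 := sm (M - (q + c) / 2 + (c - M)) (by linarith)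
        linarith [e1.1, e2.2]
      · intro _
        rw [b1_val1, hmul 0]
        have e1 := abs_le.1 (Q _ _ p hp hA)
        have e2 := sm (M - (q + c) / 2 + (p - M)) (by linarith)
        linarith [e1.2, e2.1]
      · intro _
        rw [b1_val1, hmul 0]
        have e1 := abs_le.1 (Q _ _ q hq hA)
        have e2 := h.big (x := M - (q + c) / 2 + (q - M)) (by linarith)
        linarith [e1.2]
      · intro hh; exact absurd hh hcp.ne'
      · intro hh; exact absurd hh hcq.ne
    · -- c = q
      subst hcq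
      have g := hp.gap hc hcp
      have f1 := abs_le.1 (P _ _ c hc hA); have f2 := abs_le.1 (Q _ _ c hc hA)
      set X := -c + 2 * (M + 1) * N ^ (c - M) - 2 * (M + 1) * N ^ (-c - M) with hXdef
      have hX : |X| ≤ 1 * (M + 1) := by
        rw [abs_le]; constructor
        · linarith [f1.1, f2.2]
        · linarith [f1.2, f2.1]
      apply b1_mk (2 * (M + 1)) X (-(2 * (M + 1))) 1
      · rw [b1_val0]
        have e1 := abs_le.1 (P _ _ a ha hX); have e2 := abs_le.1 (Q _ _ a ha hA')
        linarith [e1.1, e2.1]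
      · rw [b1_val0]
        have e1 := abs_le.1 (P _ _ b hb hX); have e2 := abs_le.1 (Q _ _ b hb hA')
        linarith [e1.1, e2.1]
      · rw [b1_val2]
        have e1 := abs_le.1 (P _ _ r hr hA); have e2 := abs_le.1 (Q _ _ r hr hX)
        linarith [e1.2, e2.2]
      · intro _ hh; exact absurd rfl hh
      · intro _
        rw [b1_val1]
        have e1 := abs_le.1 (P _ _ p hp hA'); have e2 := abs_le.1 (Q _ _ p hp hA)
        linarith [e1.2, e2.2, f1.2, f2.1]
      · intro hh; exact absurd rfl hh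
      · intro hh; exact absurd hh hcp.ne'
      · intro _
        rw [b1_val1, hXdef]; ring
    · -- p < q < c
      have g := hq.gap hc hcq
      have hX : |-((q + c) / 2)| ≤ 1 * (M + 1) := by
        rw [abs_neg, abs_le]; constructor <;> linarith
      apply b1_mk (2 * (M + 1)) (-((q + c) / 2)) (-(2 * (M + 1))) 1
      · rw [b1_val0]
        have e1 := abs_le.1 (P _ _ a ha hX); have e2 := abs_le.1 (Q _ _ a ha hA')
        linarith [e1.1, e2.1]
      · rw [b1_val0]
        have e1 := abs_le.1 (P _ _ b hb hX); have e2 := abs_le.1 (Q _ _ b hb hA')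
        linarith [e1.1, e2.1]
      · rw [b1_val2]
        have e1 := abs_le.1 (P _ _ r hr hA); have e2 := abs_le.1 (Q _ _ r hr hX)
        linarith [e1.2, e2.2]
      · intro _ _
        rw [b1_val1]
        have e1 := abs_le.1 (P _ _ c hc hA'); have e2 := abs_le.1 (Q _ _ c hc hA)
        linarith [e1.1, e2.1]
      · intro _
        rw [b1_val1]
        have e1 := abs_le.1 (P _ _ p hp hA'); have e2 := abs_le.1 (Q _ _ p hp hA)
        linarith [e1.2, e2.2]
      · intro _
        rw [b1_val1]
        have e1 := abs_le.1 (P _ _ q hq hA'); have e2 := abs_le.1 (Q _ _ q hq hA)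
        linarith [e1.2, e2.2]
      · intro hh; exact absurd hh hcp.ne'
      · intro hh; exact absurd hh hcq.ne'

end Pool.Agent.K3C
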