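import Pool.Agent.K3C.Defs

set_option autoImplicit false

namespace Pool.Agent.K3C

private noncomputable def g95 (N M A A' A'' t : ℝ) : ℝ :=
  A + A' * N ^ (t - M) + A'' * N ^ (-t - M) + t

private lemma prod95 {A H x δ : ℝ} (hA : |A| ≤ H) (hx0 : 0 ≤ x) (hx : H * x ≤ δ) :
    A * x ≤ δ ∧ -δ ≤ A * x := by
  have h1 := abs_le.1 hA
  constructor
  · exact (mul_le_mul_of_nonneg_right h1.2 hx0).trans hx
  · have := mul_le_mul_of_nonneg_right h1.1 hx0
    linarith

private lemma sm95 {N M : ℝ} (hB : Big N M) {x : ℝ} (hx : x ≤ -(1 / 24)) :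
    (M + 2) * N ^ x ≤ 1 / 8 := by
  have h1 := hB.small hx
  have h2 := hB.pos x
  have h3 := hB.1
  nlinarith

private lemma sm95' {N M : ℝ} (hB : Big N M) {x : ℝ} (hx : x ≤ -(1 / 24)) : N ^ x ≤ 1 / 8 := by
  have h1 := sm95 hB hx
  have h2 := hB.pos x
  have h3 := hB.1
  nlinarith

private lemma cu95 {N M A t : ℝ} (hB : Big N M) (ht : G M t) (hA : |A| ≤ M + 1) :
    A * N ^ (t - M) ≤ 1 / 8 ∧ -(1 / 8) ≤ A * N ^ (t - M) := by
  refine prod95 (hA.trans (by linarith : M + 1 ≤ M + 2)) (hB.pos _).le (sm95 hB ?_)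
  have := ht.hi
  linarith

private lemma cv95 {N M A t : ℝ} (hB : Big N M) (ht : G M t) (hA : |A| ≤ M + 1) :
    A * N ^ (-t - M) ≤ 1 / 8 ∧ -(1 / 8) ≤ A * N ^ (-t - M) := by
  refine prod95 (hA.trans (by linarith : M + 1 ≤ M + 2)) (hB.pos _).le (sm95 hB ?_)
  have := ht.lo
  linarith

private lemma mul95 {N M : ℝ} (hB : Big N M) {x y z : ℝ} (h : x + y = z) :
    N ^ x * N ^ y = N ^ z := by
  rw [← hB.add, h]

private lemma corner95 {N M c p q : ℝ} (hB : Big N M) (hc : G M c) (hp : G M p) (hq : G M q)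
    (hpq : p < q) (hcp : c ≠ p) (hcq : c ≠ q) :
    ∃ w A1 : ℝ, 0 ≤ w ∧ |A1| ≤ M + 1 ∧ (w = 0 ∨ ∃ x : ℝ, c + 1 ≤ x ∧
      w = N ^ (M - x + 1 / 2)) ∧ ∀ A0 : ℝ, |A0| ≤ M + 1 →
      0 < g95 N M A1 (-w) A0 c ∧ g95 N M A1 (-w) A0 p < 0 ∧ g95 N M A1 (-w) A0 q < 0 := by
  have hM := hB.1
  have hc1 := hc.lo
  have hc2 := hc.hi
  have hp1 := hp.lo
  have hp2 := hp.hi
  have hq1 := hq.lo
  have hq2 := hq.hi
  have hgpq := hp.gap hq hpq
  have hwu : ∀ x t : ℝ, N ^ (M - x + 1 / 2) * N ^ (t - M) = N ^ (t - x + 1 / 2) := by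
    intro x t
    exact mul95 hB (by ring)
  rcases lt_or_gt_of_ne hcp with h1 | h1
  · have g1 := hc.gap hp h1
    refine ⟨N ^ (M - p + 1 / 2), M + 1, (hB.pos _).le, by rw [abs_of_pos]; linarith,
      Or.inr ⟨p, g1, rfl⟩, ?_⟩
    intro A0 hA0
    unfold g95
    rw [neg_mul, neg_mul, neg_mul, hwu p c, hwu p p, hwu p q]
    have s1 := sm95' hB (x := c - p + 1 / 2) (by linarith)
    have s2 := hB.big (x := p - p + 1 / 2) (by linarith)
    have s3 := hB.big (x := q - p + 1 / 2) (by linarith)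
    have v1 := cv95 hB hc hA0
    have v2 := cv95 hB hp hA0
    have v3 := cv95 hB hq hA0
    refine ⟨?_, ?_, ?_⟩ <;> linarith
  · have g1 := hp.gap hc h1
    rcases lt_or_gt_of_ne hcq with h2 | h2
    · have g2 := hc.gap hq h2
      refine ⟨N ^ (M - q + 1 / 2), -(p + 1 / 2), (hB.pos _).le,
        by rw [abs_le]; constructor <;> linarith, Or.inr ⟨q, g2, rfl⟩, ?_⟩
      intro A0 hA0
      unfold g95
      rw [neg_mul, neg_mul, neg_mul, hwu q c, hwu q p, hwu q q]
      have s1 := sm95' hB (x := c - q + 1 / 2) (by linarith)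
      have s2 := hB.pos (p - q + 1 / 2)
      have s3 := hB.big (x := q - q + 1 / 2) (by linarith)
      have v1 := cv95 hB hc hA0
      have v2 := cv95 hB hp hA0
      have v3 := cv95 hB hq hA0
      refine ⟨?_, ?_, ?_⟩ <;> linarith
    · have g2 := hq.gap hc h2
      refine ⟨0, -(q + 1 / 2), le_refl _,
        by rw [abs_le]; constructor <;> linarith, Or.inl rfl, ?_⟩
      intro A0 hA0
      unfold g95
      have v1 := cv95 hB hc hA0
      have v2 := cv95 hB hp hA0
      have v3 := cv95 hB hq hA0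
      refine ⟨?_, ?_, ?_⟩ <;> linarith

private lemma corner95' {N M c p q A0 : ℝ} (hB : Big N M) (hc : G M c) (hp : G M p)
    (hq : G M q) (hpq : p < q) (hA0 : |A0| ≤ M + 1) :
    ∃ w A1 : ℝ, 0 ≤ w ∧ |A1| ≤ M + 1 ∧ (w = 0 ∨ ∃ x : ℝ, c + 1 ≤ x ∧
      w = N ^ (M - x + 1 / 2)) ∧
      (c ≠ p → c ≠ q → 0 < g95 N M A1 (-w) A0 c) ∧
      ((c = p ∨ c = q) → g95 N M A1 (-w) A0 c = 0) ∧
      (p ≠ c → g95 N M A1 (-w) A0 p < 0) ∧ (q ≠ c → g95 N M A1 (-w) A0 q < 0) := by
  have hM := hB.1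
  have hc1 := hc.lo
  have hc2 := hc.hi
  have hp1 := hp.lo
  have hp2 := hp.hi
  have hq1 := hq.lo
  have hq2 := hq.hi
  have hgpq := hp.gap hq hpq
  have hwu : ∀ x t : ℝ, N ^ (M - x + 1 / 2) * N ^ (t - M) = N ^ (t - x + 1 / 2) := by
    intro x t
    exact mul95 hB (by ring)
  by_cases hcp : c = p
  · subst hcp
    have s1 := sm95' hB (x := c - q + 1 / 2) (by linarith)
    have s1' := hB.pos (c - q + 1 / 2)
    have s3 := hB.big (x := q - q + 1 / 2) (by linarith)
    have v1 := cv95 hB hc hA0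
    have v3 := cv95 hB hq hA0
    refine ⟨N ^ (M - q + 1 / 2), -c + N ^ (c - q + 1 / 2) - A0 * N ^ (-c - M), (hB.pos _).le,
      by rw [abs_le]; constructor <;> linarith, Or.inr ⟨q, hgpq, rfl⟩,
      fun h => absurd rfl h, fun _ => ?_, fun h => absurd rfl h, fun _ => ?_⟩
    · unfold g95
      rw [neg_mul, hwu q c]; ring
    · unfold g95
      rw [neg_mul, hwu q q]
      linarith
  · by_cases hcq : c = q
    · subst hcq
      have v1 := cv95 hB hc hA0
      have v3 := cv95 hB hp hA0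
      refine ⟨0, -c - A0 * N ^ (-c - M), le_refl _,
        by rw [abs_le]; constructor <;> linarith, Or.inl rfl,
        fun _ h => absurd rfl h, fun _ => ?_, fun _ => ?_, fun h => absurd rfl h⟩
      · unfold g95; ring
      · unfold g95
        linarith
    · obtain ⟨w, A1, h1, h2, h3, h4⟩ := corner95 hB hc hp hq hpq hcp hcq
      obtain ⟨h5, h6, h7⟩ := h4 A0 hA0
      exact ⟨w, A1, h1, h2, h3, fun _ _ => h5, fun h => by
        rcases h with h | h
        · exact absurd h hcp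
        · exact absurd h hcq, fun _ => h6, fun _ => h7⟩

private lemma core95 {N M a b c p q r : ℝ} (hB : Big N M) (ha : G M a) (hb : G M b)
    (hc : G M c) (hp : G M p) (hq : G M q) (hr : G M r) (hab : a < b) (hpq : p < q)
    (h1 : a + b + c = M - 1 / 2) (h2 : p + q + r = -M - 1 / 2) :
    ∃ A0 A1 A2 : ℝ,
      (a ≠ r → 0 < g95 N M A0 A1 A2 a) ∧ (a = r → g95 N M A0 A1 A2 a = 0) ∧
      (b ≠ r → 0 < g95 N M A0 A1 A2 b) ∧ (b = r → g95 N M A0 A1 A2 b = 0) ∧
      (c ≠ p → c ≠ q → 0 < g95 N M A1 A2 A0 c) ∧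
      ((c = p ∨ c = q) → g95 N M A1 A2 A0 c = 0) ∧
      (p ≠ c → g95 N M A1 A2 A0 p < 0) ∧ (q ≠ c → g95 N M A1 A2 A0 q < 0) ∧
      (r ≠ a → r ≠ b → g95 N M A0 A1 A2 r < 0) := by
  have hM := hB.1
  have ha1 := ha.lo
  have ha2 := ha.hi
  have hb1 := hb.lo
  have hb2 := hb.hi
  have hc1 := hc.lo
  have hc2 := hc.hi
  have hp1 := hp.lo
  have hp2 := hp.hi
  have hq1 := hq.lo
  have hq2 := hq.hi
  have hr1 := hr.lo
  have hr2 := hr.hi
  have hgab := ha.gap hb hab
  have hgpq := hp.gap hq hpq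
  have hwv : ∀ x t : ℝ, N ^ (M - x + 1 / 2) * N ^ (-t - M) = N ^ (1 / 2 - x - t) := by
    intro x t
    exact mul95 hB (by ring)
  have hwcv : ∀ w : ℝ, (w = 0 ∨ ∃ x : ℝ, c + 1 ≤ x ∧ w = N ^ (M - x + 1 / 2)) →
      ∀ t : ℝ, a ≤ t → 0 ≤ w * N ^ (-t - M) ∧ w * N ^ (-t - M) ≤ 1 / 8 := by
    rintro w (rfl | ⟨x, hx1, rfl⟩) t ht
    · constructor <;> simp
    · rw [hwv x t]
      exact ⟨(hB.pos _).le, sm95' hB (by linarith)⟩
  rcases lt_trichotomy r a with hra | hra | hra
  · have hgr := hr.gap ha hra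
    obtain ⟨w, A1, hw0, hA1, hw, k1, k2, k3, k4⟩ := corner95' (A0 := -(r + 1 / 2)) hB hc hp hq
      hpq (by rw [abs_le]; constructor <;> linarith)
    refine ⟨-(r + 1 / 2), A1, -w, fun _ => ?_, fun h => by linarith, fun _ => ?_,
      fun h => by linarith, k1, k2, k3, k4, fun _ _ => ?_⟩
    · unfold g95
      have := hwcv w hw a le_rfl
      have := cu95 hB ha hA1
      linarith
    · unfold g95
      have := hwcv w hw b hab.le
      have := cu95 hB hb hA1
      linarith
    · unfold g95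
      have := cu95 hB hr hA1
      have : 0 ≤ w * N ^ (-r - M) := mul_nonneg hw0 (hB.pos _).le
      linarith
  · subst hra
    obtain ⟨w, A1, hw0, hA1, hw, k1⟩ := corner95 hB hc hp hq hpq
      (fun h => by linarith) (fun h => by linarith)
    have e1 := hwcv w hw r le_rfl
    have e2 := cu95 hB hr hA1
    have e3 := hwcv w hw b hab.le
    have e4 := cu95 hB hb hA1
    obtain ⟨k2, k3, k4⟩ := k1 (-r - A1 * N ^ (r - M) + w * N ^ (-r - M))
      (by rw [abs_le]; constructor <;> linarith)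
    refine ⟨-r - A1 * N ^ (r - M) + w * N ^ (-r - M), A1, -w, fun h => absurd rfl h,
      fun _ => by unfold g95; ring, fun _ => ?_, fun h => by linarith, fun _ _ => k2,
      fun h => ?_, fun _ => k3, fun _ => k4, fun h => absurd rfl h⟩
    · unfold g95
      linarith
    · rcases h with h | h <;> linarith
  · have hgr := ha.gap hr hra
    have hyv : ∀ y t : ℝ, N ^ (M + y + 1 / 2) * N ^ (-t - M) = N ^ (y - t + 1 / 2) := by
      intro y t
      exact mul95 hB (by ring)
    have hyu : ∀ y t : ℝ, N ^ (M + y + 1 / 2) * N ^ (t - M) = N ^ (y + t + 1 / 2) := by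
      intro y t
      exact mul95 hB (by ring)
    have hA1 : |-(M + 1)| ≤ M + 1 := by rw [abs_neg, abs_of_pos]; linarith
    have hc1 : ∀ y : ℝ, y + 1 ≤ r → 1 / 3 ≤ y + c → ∀ A0 : ℝ, |A0| ≤ M + 1 →
        0 < g95 N M (-(M + 1)) (N ^ (M + y + 1 / 2)) A0 c ∧
        g95 N M (-(M + 1)) (N ^ (M + y + 1 / 2)) A0 p < 0 ∧
        g95 N M (-(M + 1)) (N ^ (M + y + 1 / 2)) A0 q < 0 := by
      intro y hy1 hy2 A0 hA0
      unfold g95
      rw [hyu y c, hyu y p, hyu y q]
      have t1 := hB.big (x := y + c + 1 / 2) (by linarith)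
      have t2 := sm95' hB (x := y + p + 1 / 2) (by linarith)
      have t3 := sm95' hB (x := y + q + 1 / 2) (by linarith)
      have v1 := cv95 hB hc hA0
      have v2 := cv95 hB hp hA0
      have v3 := cv95 hB hq hA0
      refine ⟨?_, ?_, ?_⟩ <;> linarith
    have nocq : ∀ h : c = p ∨ c = q, False := by
      rintro (h | h) <;> linarith
    rcases lt_trichotomy r b with hrb | hrb | hrb
    · obtain ⟨k2, k3, k4⟩ := hc1 a hgr (by linarith) (-(r + 1 / 2))
        (by rw [abs_le]; constructor <;> linarith)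
      have hgr2 := hr.gap hb hrb
      refine ⟨-(r + 1 / 2), -(M + 1), N ^ (M + a + 1 / 2), fun _ => ?_,
        fun h => by linarith, fun _ => ?_, fun h => by linarith, fun _ _ => k2,
        fun h => (nocq h).elim, fun _ => k3, fun _ => k4, fun _ _ => ?_⟩
      · unfold g95
        rw [hyv a a]
        have := cu95 hB ha hA1
        have t1 := hB.big (x := a - a + 1 / 2) (by linarith)
        linarith
      · unfold g95
        rw [hyv a b]
        have := cu95 hB hb hA1
        have t1 := hB.pos (a - b + 1 / 2)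
        linarith
      · unfold g95
        rw [hyv a r]
        have := cu95 hB hr hA1
        have t1 := sm95' hB (x := a - r + 1 / 2) (by linarith)
        linarith
    · subst hrb
      have u1 := cu95 hB hr hA1
      have t1 := sm95' hB (x := a - r + 1 / 2) (by linarith)
      have t2 := hB.pos (a - r + 1 / 2)
      have hA0 : |-r - (-(M + 1)) * N ^ (r - M) - N ^ (a - r + 1 / 2)| ≤ M + 1 := by
        rw [abs_le]; constructor <;> linarith
      obtain ⟨k2, k3, k4⟩ := hc1 a hgr (by linarith) _ hA0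
      refine ⟨-r - (-(M + 1)) * N ^ (r - M) - N ^ (a - r + 1 / 2), -(M + 1),
        N ^ (M + a + 1 / 2), fun _ => ?_, fun h => by linarith,
        fun h => absurd rfl h, fun _ => ?_, fun _ _ => k2, fun h => (nocq h).elim, fun _ => k3,
        fun _ => k4, fun _ h => absurd rfl h⟩
      · unfold g95
        rw [hyv a a]
        have := cu95 hB ha hA1
        have t1 := hB.big (x := a - a + 1 / 2) (by linarith)
        linarith
      · unfold g95
        rw [hyv a r]
        ring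
    · have hgr3 := hb.gap hr hrb
      obtain ⟨k2, k3, k4⟩ := hc1 b hgr3 (by linarith) _ hA1
      refine ⟨-(M + 1), -(M + 1), N ^ (M + b + 1 / 2), fun _ => ?_, fun h => by linarith,
        fun _ => ?_, fun h => by linarith, fun _ _ => k2, fun h => (nocq h).elim, fun _ => k3,
        fun _ => k4, fun _ _ => ?_⟩
      · unfold g95
        rw [hyv b a]
        have := cu95 hB ha hA1
        have t1 := hB.big (x := b - a + 1 / 2) (by linarith)
        linarith
      · unfold g95
        rw [hyv b b]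
        have := cu95 hB hb hA1
        have t1 := hB.big (x := b - b + 1 / 2) (by linarith)
        linarith
      · unfold g95
        rw [hyv b r]
        have := cu95 hB hr hA1
        have t1 := sm95' hB (x := b - r + 1 / 2) (by linarith)
        linarith

/-- case B2 (00|1, 11|0) -/
theorem caseB2 {N M a b c p q r : ℝ} (hB : Big N M) (ha : G M a) (hb : G M b) (hc : G M c)
    (hp : G M p) (hq : G M q) (hr : G M r) (hab : a < b) (hpq : p < q)
    (h1 : a + b + c = M - 1 / 2) (h2 : p + q + r = -M - 1 / 2) :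
    Sp N M {((0 : ℕ), a), (0, b), (1, c)} {((1 : ℕ), p), (1, q), (0, r)} := by
  obtain ⟨A0, A1, A2, k1, k2, k3, k4, k5, k6, k7, k8, k9⟩ :=
    core95 hB ha hb hc hp hq hr hab hpq h1 h2
  have v0 : ∀ t, val N M A0 A1 A2 1 (0, t) = g95 N M A0 A1 A2 t := by
    intro t; rw [val_zero]; unfold g95; ring
  have v1 : ∀ t, val N M A0 A1 A2 1 (1, t) = g95 N M A1 A2 A0 t := by
    intro t; rw [val_one]; unfold g95; ring
  refine ⟨A0, A1, A2, 1, ?_, ?_, ?_⟩
  · intro v hv hv'
    simp only [Set.mem_insert_iff, Set.mem_singleton_iff] at hv hv'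
    rcases hv with rfl | rfl | rfl
    · rw [v0]
      exact k1 (fun h => hv' (by simp [h]))
    · rw [v0]
      exact k3 (fun h => hv' (by simp [h]))
    · rw [v1]
      exact k5 (fun h => hv' (by simp [h])) (fun h => hv' (by simp [h]))
  · intro v hv hv'
    simp only [Set.mem_insert_iff, Set.mem_singleton_iff] at hv hv'
    rcases hv with rfl | rfl | rfl
    · rw [v1]
      exact k7 (fun h => hv' (by simp [h]))
    · rw [v1]
      exact k8 (fun h => hv' (by simp [h]))
    · rw [v0]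
      exact k9 (fun h => hv' (by simp [h])) (fun h => hv' (by simp [h]))
  · intro v hv hv'
    simp only [Set.mem_insert_iff, Set.mem_singleton_iff] at hv hv'
    rcases hv with rfl | rfl | rfl
    · rw [v0]
      simp at hv'
      exact k2 hv'
    · rw [v0]
      simp at hv'
      exact k4 hv'
    · rw [v1]
      simp at hv'
      exact k6 hv'

end Pool.Agent.K3C
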