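import Pool.Agent.K3C.Defs

set_option autoImplicit false

namespace Pool.Agent.K3C

private lemma b4_sp {N M a b c p q r : ℝ} (hab : a < b)
    (h : ∃ A0 A1 A2 B : ℝ, (a ≠ r → 0 < val N M A0 A1 A2 B (0, a)) ∧
      (b ≠ r → 0 < val N M A0 A1 A2 B (0, b)) ∧ 0 < val N M A0 A1 A2 B (2, c) ∧
      val N M A0 A1 A2 B (1, p) < 0 ∧ val N M A0 A1 A2 B (1, q) < 0 ∧
      (a ≠ r → b ≠ r → val N M A0 A1 A2 B (0, r) < 0) ∧
      (a = r ∨ b = r → val N M A0 A1 A2 B (0, r) = 0)) :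
    Sp N M {((0 : ℕ), a), (0, b), (2, c)} {((1 : ℕ), p), (1, q), (0, r)} := by
  obtain ⟨A0, A1, A2, B, h1, h2, h3, h4, h5, h6, h7⟩ := h
  refine ⟨A0, A1, A2, B, ?_, ?_, ?_⟩
  · intro v hv hv'
    simp only [Set.mem_insert_iff, Set.mem_singleton_iff] at hv hv'
    rcases hv with rfl | rfl | rfl
    · exact h1 fun h => hv' (Or.inr (Or.inr (by rw [h])))
    · exact h2 fun h => hv' (Or.inr (Or.inr (by rw [h])))
    · exact h3
  · intro v hv hv'
    simp only [Set.mem_insert_iff, Set.mem_singleton_iff] at hv hv'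
    rcases hv with rfl | rfl | rfl
    · exact h4
    · exact h5
    · exact h6 (fun h => hv' (Or.inl (by rw [h]))) (fun h => hv' (Or.inr (Or.inl (by rw [h]))))
  · intro v hv hv'
    simp only [Set.mem_insert_iff, Set.mem_singleton_iff] at hv hv'
    rcases hv' with rfl | rfl | rfl
    · simp at hv
    · simp at hv
    · simp at hv
      exact h7 (hv.imp Eq.symm Eq.symm)

private lemma b4_uw {N M : ℝ} (hB : Big N M) {t : ℝ} (h1 : 1 / 6 - M ≤ t) (h2 : t ≤ M - 5 / 6) :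
    0 < N ^ (t - M) ∧ 0 < N ^ (-t - M) ∧ N ^ (t - M) * (1000 * (M + 1)) ≤ 1 ∧
    N ^ (-t - M) * (1000 * (M + 1)) ≤ 1 ∧ N ^ (1 / 24 : ℝ) * N ^ (t - M) * 1000 ≤ 1 ∧
    N ^ (1 / 24 : ℝ) * N ^ (-t - M) * 1000 ≤ 1 := by
  have hM := hB.M_pos
  have key : ∀ x : ℝ, x ≤ -(1 / 12) → N ^ (1 / 24 : ℝ) * N ^ x * 1000 ≤ 1 := by
    intro x hx
    rw [← hB.add]
    have h3 := hB.small (x := 1 / 24 + x) (by linarith)
    have h4 := hB.pos (1 / 24 + x)
    nlinarith
  exact ⟨hB.pos _, hB.pos _, hB.small (by linarith), hB.small (by linarith),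
    key _ (by linarith), key _ (by linarith)⟩

private lemma b4_mul {A M x : ℝ} (hM : 0 < M) (hA : |A| ≤ M + 1) (hx : 0 < x)
    (hx2 : x * (1000 * (M + 1)) ≤ 1) : |A * x| ≤ 1 / 1000 := by
  rw [abs_mul, abs_of_pos hx]
  have h1 : |A| * x ≤ (M + 1) * x := mul_le_mul_of_nonneg_right hA hx.le
  linarith

/-- the points at the corners `1` and `2` -/
private lemma b4_far {N M : ℝ} (hB : Big N M) {A0 B t : ℝ} (hA : |A0| ≤ M + 1) (hb : |B| ≤ 1)
    (h1 : 1 / 6 - M ≤ t) (h2 : t ≤ M - 5 / 6) :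
    0 < val N M A0 (-N ^ (1 / 24 : ℝ)) (N ^ (1 / 24 : ℝ)) B (2, t) ∧
    val N M A0 (-N ^ (1 / 24 : ℝ)) (N ^ (1 / 24 : ℝ)) B (1, t) < 0 := by
  have hM := hB.M_pos
  obtain ⟨u0, w0, u1, w1, u2, w2⟩ := b4_uw hB h1 h2
  have hK : 1000 * (M + 1) ≤ N ^ (1 / 24 : ℝ) := hB.big le_rfl
  have hu := abs_le.1 (b4_mul hM hA u0 u1)
  have hw := abs_le.1 (b4_mul hM hA w0 w1)
  have hBt : |B * t| ≤ M := by
    rw [abs_mul]
    have h3 : |t| ≤ M := abs_le.2 ⟨by linarith, by linarith⟩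
    calc |B| * |t| ≤ 1 * M := mul_le_mul hb h3 (abs_nonneg _) zero_le_one
      _ = M := one_mul _
  have hBt' := abs_le.1 hBt
  rw [val_two, val_one]
  constructor <;> nlinarith

/-- the points at the corner `0` -/
private lemma b4_near {N M : ℝ} (hB : Big N M) {s σ : ℝ} (hσ : |σ| = 1)
    (h1 : 1 / 6 - M ≤ s) (h2 : s ≤ M - 5 / 6) :
    ∃ A0 : ℝ, |A0| ≤ M + 1 ∧
      (∀ t, t = s → val N M A0 (-N ^ (1 / 24 : ℝ)) (N ^ (1 / 24 : ℝ)) σ (0, t) = 0) ∧
      (∀ t, 1 / 6 - M ≤ t → t ≤ M - 5 / 6 → 1 / 2 ≤ σ * (t - s) →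
        0 < val N M A0 (-N ^ (1 / 24 : ℝ)) (N ^ (1 / 24 : ℝ)) σ (0, t)) ∧
      (∀ t, 1 / 6 - M ≤ t → t ≤ M - 5 / 6 → σ * (t - s) ≤ -(1 / 2) →
        val N M A0 (-N ^ (1 / 24 : ℝ)) (N ^ (1 / 24 : ℝ)) σ (0, t) < 0) := by
  have hM := hB.M_pos
  obtain ⟨u0, w0, u1, w1, u2, w2⟩ := b4_uw hB h1 h2
  have hK : 0 < N ^ (1 / 24 : ℝ) := hB.pos _
  have hσs : |σ * s| ≤ M := by
    rw [abs_mul, hσ, one_mul]
    exact abs_le.2 ⟨by linarith, by linarith⟩
  have hσs' := abs_le.1 hσs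
  have e1 : 0 < N ^ (1 / 24 : ℝ) * N ^ (s - M) := mul_pos hK u0
  have e2 : 0 < N ^ (1 / 24 : ℝ) * N ^ (-s - M) := mul_pos hK w0
  refine ⟨N ^ (1 / 24 : ℝ) * N ^ (s - M) - N ^ (1 / 24 : ℝ) * N ^ (-s - M) - σ * s, ?_, ?_, ?_, ?_⟩
  · rw [abs_le]
    constructor <;> linarith
  · rintro t rfl
    rw [val_zero]
    ring
  · intro t ht1 ht2 hts
    obtain ⟨u0', w0', u1', w1', u2', w2'⟩ := b4_uw hB ht1 ht2
    have e1' : 0 < N ^ (1 / 24 : ℝ) * N ^ (t - M) := mul_pos hK u0'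
    have e2' : 0 < N ^ (1 / 24 : ℝ) * N ^ (-t - M) := mul_pos hK w0'
    rw [val_zero]
    linarith
  · intro t ht1 ht2 hts
    obtain ⟨u0', w0', u1', w1', u2', w2'⟩ := b4_uw hB ht1 ht2
    have e1' : 0 < N ^ (1 / 24 : ℝ) * N ^ (t - M) := mul_pos hK u0'
    have e2' : 0 < N ^ (1 / 24 : ℝ) * N ^ (-t - M) := mul_pos hK w0'
    rw [val_zero]
    linarith

/-- case B4 (00|2, 11|0) -/
theorem caseB4 {N M a b c p q r : ℝ} (hB : Big N M) (ha : G M a) (hb : G M b) (hc : G M c)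
    (hp : G M p) (hq : G M q) (hr : G M r) (hab : a < b) (hpq : p < q)
    (h1 : a + b + c = -M - 1 / 2) (h2 : p + q + r = -M - 1 / 2) :
    Sp N M {((0 : ℕ), a), (0, b), (2, c)} {((1 : ℕ), p), (1, q), (0, r)} := by
  have hM := hB.M_pos
  have hab1 := ha.gap hb hab
  have hpq1 := hp.gap hq hpq
  have la := ha.lo
  have lb := hb.lo
  have lc := hc.lo
  have lp := hp.lo
  have lq := hq.lo
  have lr := hr.lo
  have ua := ha.hi
  have ub := hb.hi
  have uc := hc.hi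
  have up := hp.hi
  have uq := hq.hi
  have ur := hr.hi
  apply b4_sp hab
  rcases le_or_gt b r with hbr | hbr
  · -- `b ≤ r`
    obtain ⟨A0, hA0, k0, k1, k2⟩ := b4_near hB (s := (b + r) / 2) (σ := -1) (by simp)
      (by linarith) (by linarith)
    refine ⟨A0, _, _, -1, fun _ => k1 a la ua (by linarith), fun hne => ?_,
      (b4_far hB hA0 (by simp) lc uc).1, (b4_far hB hA0 (by simp) lp up).2,
      (b4_far hB hA0 (by simp) lq uq).2, fun _ hne => ?_, fun he => ?_⟩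
    · have := hb.gap hr (lt_of_le_of_ne hbr hne)
      exact k1 b lb ub (by linarith)
    · have := hb.gap hr (lt_of_le_of_ne hbr hne)
      exact k2 r lr ur (by linarith)
    · rcases he with he | he
      · linarith
      · exact k0 r (by rw [he]; ring)
  rcases le_or_gt r a with hra | hra
  · -- `r ≤ a`
    obtain ⟨A0, hA0, k0, k1, k2⟩ := b4_near hB (s := (a + r) / 2) (σ := 1) (by simp)
      (by linarith) (by linarith)
    refine ⟨A0, _, _, 1, fun hne => ?_, fun _ => k1 b lb ub (by linarith),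
      (b4_far hB hA0 (by simp) lc uc).1, (b4_far hB hA0 (by simp) lp up).2,
      (b4_far hB hA0 (by simp) lq uq).2, fun hne _ => ?_, fun he => ?_⟩
    · have := hr.gap ha (lt_of_le_of_ne hra (Ne.symm hne))
      exact k1 a la ua (by linarith)
    · have := hr.gap ha (lt_of_le_of_ne hra (Ne.symm hne))
      exact k2 r lr ur (by linarith)
    · rcases he with he | he
      · exact k0 r (by rw [he]; ring)
      · linarith
  -- `a < r < b`
  have g1 := ha.gap hr hra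
  have g2 := hr.gap hb hbr
  have hP : (1000 : ℝ) ≤ 1000 * (M + 1) := by linarith
  have tiny : ∀ x : ℝ, x ≤ -(1 / 24) → N ^ x ≤ 1 / 1000 := by
    intro x hx
    have h3 := hB.small hx
    have h4 := hB.pos x
    nlinarith
  have hd := hB.big (x := 1 / 24) le_rfl
  refine ⟨-(r + 1 / 2), -(N ^ (1 / 24 : ℝ) + N ^ (q + a + 1 / 12)), N ^ (M + a + 1 / 24), 1,
    fun _ => ?_, fun _ => ?_, ?_, ?_, ?_, fun _ _ => ?_, fun he => ?_⟩
  · -- (0, a)
    rw [val_zero]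
    have e1 : N ^ (1 / 24 : ℝ) * N ^ (a - M) ≤ 1 / 1000 := by
      rw [← hB.add]; exact tiny _ (by linarith)
    have e2 : N ^ (q + a + 1 / 12) * N ^ (a - M) ≤ 1 / 1000 := by
      rw [← hB.add]; exact tiny _ (by linarith)
    have e3 : N ^ (M + a + 1 / 24) * N ^ (-a - M) = N ^ (1 / 24 : ℝ) := by
      rw [← hB.add]; congr 1; ring
    rw [e3]
    linarith
  · -- (0, b)
    rw [val_zero]
    have e1 : N ^ (1 / 24 : ℝ) * N ^ (b - M) ≤ 1 / 1000 := by
      rw [← hB.add]; exact tiny _ (by linarith)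
    have e2 : N ^ (q + a + 1 / 12) * N ^ (b - M) ≤ 1 / 1000 := by
      rw [← hB.add]; exact tiny _ (by linarith)
    have e3 : 0 < N ^ (M + a + 1 / 24) * N ^ (-b - M) := mul_pos (hB.pos _) (hB.pos _)
    linarith
  · -- (2, c)
    rw [val_two]
    have hA2 := hB.big (x := M + a + 1 / 24) (by linarith)
    have e1 : N ^ (1 / 24 : ℝ) * N ^ (-c - M) ≤ 1 / 1000 := by
      rw [← hB.add]; exact tiny _ (by linarith)
    have e2 : N ^ (q + a + 1 / 12) * N ^ (-c - M) * 1000 ≤ N ^ (M + a + 1 / 24) := by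
      have h3 := hB.gap (x := q + a + 1 / 12 + (-c - M)) (y := M + a + 1 / 24) (by linarith)
      rw [hB.add] at h3
      have h4 : 0 < N ^ (q + a + 1 / 12) * N ^ (-c - M) := mul_pos (hB.pos _) (hB.pos _)
      nlinarith
    have e3 := abs_le.1 (b4_mul (A := -(r + 1 / 2)) hM
      (abs_le.2 ⟨by linarith, by linarith⟩) (hB.pos (c - M)) (hB.small (by linarith)))
    linarith [e3.1]
  · -- (1, p)
    rw [val_one]
    have e1 : N ^ (M + a + 1 / 24) * N ^ (p - M) * 1000 ≤ N ^ (q + a + 1 / 12) := by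
      have h3 := hB.gap (x := M + a + 1 / 24 + (p - M)) (y := q + a + 1 / 12) (by linarith)
      rw [hB.add] at h3
      have h4 : 0 < N ^ (M + a + 1 / 24) * N ^ (p - M) := mul_pos (hB.pos _) (hB.pos _)
      nlinarith
    have e2 := abs_le.1 (b4_mul (A := -(r + 1 / 2)) hM
      (abs_le.2 ⟨by linarith, by linarith⟩) (hB.pos (-p - M)) (hB.small (by linarith)))
    have e3 := hB.pos (q + a + 1 / 12)
    linarith [e2.2]
  · -- (1, q)
    rw [val_one]
    have e1 : N ^ (M + a + 1 / 24) * N ^ (q - M) * 1000 ≤ N ^ (q + a + 1 / 12) := by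
      have h3 := hB.gap (x := M + a + 1 / 24 + (q - M)) (y := q + a + 1 / 12) (by linarith)
      rw [hB.add] at h3
      have h4 : 0 < N ^ (M + a + 1 / 24) * N ^ (q - M) := mul_pos (hB.pos _) (hB.pos _)
      nlinarith
    have e2 := abs_le.1 (b4_mul (A := -(r + 1 / 2)) hM
      (abs_le.2 ⟨by linarith, by linarith⟩) (hB.pos (-q - M)) (hB.small (by linarith)))
    have e3 := hB.pos (q + a + 1 / 12)
    linarith [e2.2]
  · -- (0, r)
    rw [val_zero]
    have e1 : 0 < N ^ (1 / 24 : ℝ) * N ^ (r - M) := mul_pos (hB.pos _) (hB.pos _)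
    have e2 : 0 < N ^ (q + a + 1 / 12) * N ^ (r - M) := mul_pos (hB.pos _) (hB.pos _)
    have e3 : N ^ (M + a + 1 / 24) * N ^ (-r - M) ≤ 1 / 1000 := by
      rw [← hB.add]; exact tiny _ (by linarith)
    linarith
  · rcases he with he | he <;> linarith

end Pool.Agent.K3C
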