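import Mathlib

/-! The cyclic system `L + L' + L'' = -1 mod 3m` in space: the points and the common form of the
separation lemmas (MP_a19305_co). -/

set_option autoImplicit false

namespace Pool.Agent.K3C

/-- value of the linear form `(A0, A1, A2, B)` at the point `(e, t)`, `e = 0, 1, 2` -/
noncomputable def val (N M A0 A1 A2 B : ℝ) (v : ℕ × ℝ) : ℝ :=
  if v.1 = 0 then A0 + A1 * N ^ (v.2 - M) + A2 * N ^ (-v.2 - M) + B * v.2
  else if v.1 = 1 then A1 + A2 * N ^ (v.2 - M) + A0 * N ^ (-v.2 - M) + B * v.2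
  else A2 + A0 * N ^ (v.2 - M) + A1 * N ^ (-v.2 - M) + B * v.2

@[simp] lemma val_zero (N M A0 A1 A2 B t : ℝ) : val N M A0 A1 A2 B (0, t) =
    A0 + A1 * N ^ (t - M) + A2 * N ^ (-t - M) + B * t := by unfold val; simp

@[simp] lemma val_one (N M A0 A1 A2 B t : ℝ) : val N M A0 A1 A2 B (1, t) =
    A1 + A2 * N ^ (t - M) + A0 * N ^ (-t - M) + B * t := by unfold val; simp

@[simp] lemma val_two (N M A0 A1 A2 B t : ℝ) : val N M A0 A1 A2 B (2, t) =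
    A2 + A0 * N ^ (t - M) + A1 * N ^ (-t - M) + B * t := by unfold val; simp

/-- a linear form positive on `S \ T`, negative on `T \ S`, zero on `S ∩ T` -/
def Sp (N M : ℝ) (S T : Set (ℕ × ℝ)) : Prop :=
  ∃ A0 A1 A2 B : ℝ, (∀ v ∈ S, v ∉ T → 0 < val N M A0 A1 A2 B v) ∧
    (∀ v ∈ T, v ∉ S → val N M A0 A1 A2 B v < 0) ∧ ∀ v ∈ S, v ∈ T → val N M A0 A1 A2 B v = 0

/-- the grid -/
def G (M t : ℝ) : Prop := ∃ k : ℕ, (k : ℝ) + 1 ≤ 2 * M ∧ t = k + 1 / 6 - M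

/-- `N` is large -/
def Big (N M : ℝ) : Prop := 1 / 2 ≤ M ∧ 1 < N ∧ 1000 * (M + 1) ≤ N ^ (1 / 24 : ℝ)

lemma G.lo {M t : ℝ} (h : G M t) : 1 / 6 - M ≤ t := by
  obtain ⟨k, _, rfl⟩ := h
  have : (0 : ℝ) ≤ k := Nat.cast_nonneg k
  linarith

lemma G.hi {M t : ℝ} (h : G M t) : t ≤ M - 5 / 6 := by
  obtain ⟨k, h, rfl⟩ := h
  linarith

lemma G.gap {M s t : ℝ} (hs : G M s) (ht : G M t) (h : s < t) : s + 1 ≤ t := by
  obtain ⟨k, _, rfl⟩ := hs
  obtain ⟨l, _, rfl⟩ := ht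
  have h1 : (k : ℝ) < l := by linarith
  have h2 : k < l := by exact_mod_cast h1
  have h3 : (k : ℝ) + 1 ≤ l := by exact_mod_cast h2
  linarith

/-- the trichotomy on the grid with gaps -/
lemma G.tri {M s t : ℝ} (hs : G M s) (ht : G M t) : s + 1 ≤ t ∨ s = t ∨ t + 1 ≤ s := by
  rcases lt_trichotomy s t with h | h | h
  · exact Or.inl (hs.gap ht h)
  · exact Or.inr (Or.inl h)
  · exact Or.inr (Or.inr (ht.gap hs h))

lemma Big.M_pos {N M : ℝ} (h : Big N M) : 0 < M := by have := h.1; linarith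

lemma Big.N_pos {N M : ℝ} (h : Big N M) : 0 < N := by have := h.2.1; linarith

lemma Big.pos {N M : ℝ} (h : Big N M) (x : ℝ) : 0 < N ^ x := Real.rpow_pos_of_pos h.N_pos x

lemma Big.mono {N M : ℝ} (h : Big N M) {x y : ℝ} (hxy : x ≤ y) : N ^ x ≤ N ^ y :=
  Real.rpow_le_rpow_of_exponent_le h.2.1.le hxy

lemma Big.strict {N M : ℝ} (h : Big N M) {x y : ℝ} (hxy : x < y) : N ^ x < N ^ y :=
  Real.rpow_lt_rpow_of_exponent_lt h.2.1 hxy

lemma Big.add {N M : ℝ} (h : Big N M) (x y : ℝ) : N ^ (x + y) = N ^ x * N ^ y :=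
  Real.rpow_add h.N_pos x y

/-- `N ^ x` is large for `x ≥ 1/24` -/
lemma Big.big {N M : ℝ} (h : Big N M) {x : ℝ} (hx : 1 / 24 ≤ x) : 1000 * (M + 1) ≤ N ^ x :=
  h.2.2.trans (h.mono hx)

/-- `N ^ x` is small for `x ≤ - 1/24` -/
lemma Big.small {N M : ℝ} (h : Big N M) {x : ℝ} (hx : x ≤ -(1 / 24)) :
    N ^ x * (1000 * (M + 1)) ≤ 1 := by
  have h1 : 1000 * (M + 1) ≤ N ^ (-x) := h.big (by linarith)
  have h2 : N ^ x * N ^ (-x) = 1 := by rw [← h.add]; simp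
  calc N ^ x * (1000 * (M + 1)) ≤ N ^ x * N ^ (-x) :=
        mul_le_mul_of_nonneg_left h1 (h.pos x).le
    _ = 1 := h2

/-- comparison of powers with a gap of `1/24` -/
lemma Big.gap {N M : ℝ} (h : Big N M) {x y : ℝ} (hxy : x + 1 / 24 ≤ y) :
    N ^ x * (1000 * (M + 1)) ≤ N ^ y := by
  have h1 := h.big (x := y - x) (by linarith)
  have h2 : N ^ y = N ^ x * N ^ (y - x) := by rw [← h.add]; congr 1; ring
  rw [h2]
  exact mul_le_mul_of_nonneg_left h1 (h.pos x).le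

lemma Sp.symm {N M : ℝ} {S T : Set (ℕ × ℝ)} (h : Sp N M S T) : Sp N M T S := by
  obtain ⟨A0, A1, A2, B, h1, h2, h3⟩ := h
  have hn : ∀ v, val N M (-A0) (-A1) (-A2) (-B) v = - val N M A0 A1 A2 B v := by
    intro v; unfold val; split_ifs <;> ring
  refine ⟨-A0, -A1, -A2, -B, ?_, ?_, ?_⟩
  · intro v hv hv'; rw [hn]; have := h2 v hv hv'; linarith
  · intro v hv hv'; rw [hn]; have := h1 v hv hv'; linarith
  · intro v hv hv'; rw [hn, h3 v hv' hv]; ring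

/-- rotation of the corners -/
def rot (v : ℕ × ℝ) : ℕ × ℝ := (if v.1 = 0 then 1 else if v.1 = 1 then 2 else 0, v.2)

end Pool.Agent.K3C
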