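import Pool.Agent.K3C.Asm
import Pool.Agent.HCYC.Nd

/-! From the seven cases to the separation of the triangles in terms of the labels. -/

set_option autoImplicit false

namespace Pool.Agent.K3C
noncomputable section

open Pool.Agent

/-- corner and height of a label -/
def lt (m L : ℕ) : ℕ × ℝ := (L / m, ((L % m : ℕ) : ℝ) + 1 / 6 - (m : ℝ) / 2)

/-- height of an index -/
def ht (m k : ℕ) : ℝ := (k : ℝ) + 1 / 6 - (m : ℝ) / 2

theorem lt_inj {m L L' : ℕ} (hm : 0 < m) (h : lt m L = lt m L') : L = L' := by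
  simp only [lt, Prod.mk.injEq] at h
  have h2 : ((L % m : ℕ) : ℝ) = ((L' % m : ℕ) : ℝ) := by linarith [h.2]
  have h3 : L % m = L' % m := by exact_mod_cast h2
  rw [← Nat.div_add_mod L m, ← Nat.div_add_mod L' m, h.1, h3]

theorem lt_lab {m e k : ℕ} (hk : k < m) : lt m (m * e + k) = (e, ht m k) := by
  simp only [lt, ht, HCYC.div_lab hk, HCYC.mod_lab hk]

theorem G_ht {m k : ℕ} (hk : k < m) : G ((m : ℝ) / 2) (ht m k) := by
  refine ⟨k, ?_, rfl⟩
  have : ((k + 1 : ℕ) : ℝ) ≤ m := by exact_mod_cast hk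
  push_cast at this
  linarith

theorem pow_next {m k : ℕ} (hk : k < m) {q N : ℝ} (hq : 0 < q) (hN : N = q ^ (-6 : ℝ)) :
    N ^ (((k : ℝ) + 1 / 6 - (m : ℝ) / 2) - (m : ℝ) / 2) = HCYC.c1 m q k := by
  unfold HCYC.c1
  rw [hN, ← Real.rpow_mul hq.le, ← Real.rpow_natCast]
  congr 1
  have h1 : 1 ≤ 6 * (m - k) := by omega
  rw [Nat.cast_sub h1]
  push_cast [Nat.cast_sub hk.le]
  ring

theorem pow_prev {m k : ℕ} {q N : ℝ} (hq : 0 < q) (hN : N = q ^ (-6 : ℝ)) :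
    N ^ (-((k : ℝ) + 1 / 6 - (m : ℝ) / 2) - (m : ℝ) / 2) = HCYC.c2 q k := by
  unfold HCYC.c2
  rw [hN, ← Real.rpow_mul hq.le, ← Real.rpow_natCast]
  congr 1
  push_cast
  ring

theorem val_eq {m : ℕ} (hm : 0 < m) {q N : ℝ} (hq : 0 < q) (hN : N = q ^ (-6 : ℝ))
    (A0 A1 A2 B : ℝ) (L : ℕ) :
    HCYC.val m q A0 A1 A2 (B / 6) L = val N ((m : ℝ) / 2) A0 A1 A2 B (lt m L) := by
  have hk : L % m < m := Nat.mod_lt _ hm
  have h1 := pow_next hk hq hN
  have h2 := pow_prev (m := m) (k := L % m) hq hN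
  have h3 : B / 6 * HCYC.tau m (L % m) = B * (((L % m : ℕ) : ℝ) + 1 / 6 - (m : ℝ) / 2) := by
    unfold HCYC.tau; ring
  unfold HCYC.val HCYC.ev val lt
  simp only [h1, h2, h3]

theorem sepV_of_sp {m : ℕ} (hm : 0 < m) {q N : ℝ} (hq : 0 < q) (hN : N = q ^ (-6 : ℝ))
    {S T : Finset ℕ} (h : Sp N ((m : ℝ) / 2) (lt m '' (S : Set ℕ)) (lt m '' (T : Set ℕ))) :
    HCYC.SepV m q S T := by
  obtain ⟨A0, A1, A2, B, h1, h2, h3⟩ := h
  have hin : ∀ (U : Finset ℕ) (L : ℕ), L ∉ U → lt m L ∉ lt m '' (U : Set ℕ) := by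
    rintro U L hL ⟨L', hL', h⟩
    exact hL ((lt_inj hm h) ▸ hL')
  refine ⟨A0, A1, A2, B / 6, ?_, ?_, ?_⟩
  · intro r hr hr'
    rw [val_eq hm hq hN]
    exact h1 _ ⟨r, hr, rfl⟩ (hin T r hr')
  · intro r hr hr'
    rw [val_eq hm hq hN]
    exact h2 _ ⟨r, hr, rfl⟩ (hin S r hr')
  · intro r hr hr'
    rw [val_eq hm hq hN]
    exact h3 _ ⟨r, hr, rfl⟩ ⟨r, hr', rfl⟩

theorem image_tr {m e k l : ℕ} (he : e < 3) (hkl : k < l) (hl : l < m) :
    ∃ (κ : ℕ) (c : ℝ), Ok ((m : ℝ) / 2) κ (ht m k) (ht m l) c ∧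
      lt m '' (HCYC.tr m e k l : Set ℕ) = tr e κ (ht m k) (ht m l) c := by
  have hab : ht m k < ht m l := by
    unfold ht
    have : (k : ℝ) < l := by exact_mod_cast hkl
    linarith
  have he3 : e % 3 = e := Nat.mod_eq_of_lt he
  rcases HCYC.third_spec he hkl hl with ⟨r, h1, h2⟩ | ⟨r, h0, h1, h2⟩
  · have hr : r < m := by omega
    refine ⟨2, ht m r, ⟨G_ht (hkl.trans hl), G_ht hl, G_ht hr, hab, Or.inr ⟨rfl, ?_⟩⟩, ?_⟩
    · have : ((k + l + r + 1 : ℕ) : ℝ) = m := by exact_mod_cast h1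
      push_cast at this
      unfold ht
      linarith
    · unfold HCYC.tr tr
      rw [h2]
      simp only [Finset.coe_insert, Finset.coe_singleton, Set.image_insert_eq,
        Set.image_singleton, lt_lab (hkl.trans hl), lt_lab hl, lt_lab hr, he3]
  · refine ⟨1, ht m r, ⟨G_ht (hkl.trans hl), G_ht hl, G_ht h0, hab, Or.inl ⟨rfl, ?_⟩⟩, ?_⟩
    · have : ((k + l + r + 1 : ℕ) : ℝ) = ((2 * m : ℕ) : ℝ) := by exact_mod_cast h1
      push_cast at this
      unfold ht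
      linarith
    · unfold HCYC.tr tr
      rw [h2]
      simp only [Finset.coe_insert, Finset.coe_singleton, Set.image_insert_eq,
        Set.image_singleton, lt_lab (hkl.trans hl), lt_lab hl, lt_lab h0, he3]

/-- any two different triangles of the family are separated -/
theorem sepV_of_cases {m : ℕ} {q N : ℝ} (hq : 0 < q) (hN : N = q ^ (-6 : ℝ))
    (hc : Cases N ((m : ℝ) / 2)) :
    ∀ S ∈ HCYC.F m, ∀ T ∈ HCYC.F m, S ≠ T → HCYC.SepV m q S T := by
  intro S hS T hT hne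
  obtain ⟨e, k, l, he, hkl, hl, rfl⟩ := HCYC.mem_F.1 hS
  obtain ⟨e', k', l', he', hkl', hl', rfl⟩ := HCYC.mem_F.1 hT
  have hm : 0 < m := by omega
  obtain ⟨κ, c, ok, h1⟩ := image_tr he hkl hl
  obtain ⟨κ', c', ok', h2⟩ := image_tr he' hkl' hl'
  apply sepV_of_sp hm hq hN
  rw [h1, h2]
  apply hc.all ok ok'
  rintro ⟨h3, -, h5, h6⟩
  apply hne
  have e1 : e = e' := by omega
  have e2 : k = k' := by
    unfold ht at h5
    have : (k : ℝ) = k' := by linarith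
    exact_mod_cast this
  have e3 : l = l' := by
    unfold ht at h6
    have : (l : ℝ) = l' := by linarith
    exact_mod_cast this
  rw [e1, e2, e3]

end
end Pool.Agent.K3C
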