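import Pool.Agent.K3C.Dict
import Pool.Agent.HCYC.Fin
import Pool.Agent.K3C.A1
import Pool.Agent.K3C.A2
import Pool.Agent.K3C.A3
import Pool.Agent.K3C.B1
import Pool.Agent.K3C.B2
import Pool.Agent.K3C.B3
import Pool.Agent.K3C.B4

/-! The cyclic family of almost disjoint triangles: the final theorem. -/

set_option autoImplicit false

namespace Pool.Agent.K3C

open Filter Topology Pool.Agent

theorem cases_of_big {N M : ℝ} (h : Big N M) : Cases N M where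
  A1 := fun _ _ _ _ _ _ ha hb hc hp hq hr hab hpq h1 h2 hne =>
    caseA1 h ha hb hc hp hq hr hab hpq h1 h2 hne
  A2 := fun _ _ _ _ _ _ ha hb hc hp hq hr hab hpq h1 h2 hne =>
    caseA2 h ha hb hc hp hq hr hab hpq h1 h2 hne
  A3 := fun _ _ _ _ _ _ ha hb hc hp hq hr hab hpq h1 h2 _ =>
    caseA3 h ha hb hc hp hq hr hab hpq h1 h2
  B1 := fun _ _ _ _ _ _ ha hb hc hp hq hr hab hpq h1 h2 =>
    caseB1 h ha hb hc hp hq hr hab hpq h1 h2
  B2 := fun _ _ _ _ _ _ ha hb hc hp hq hr hab hpq h1 h2 =>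
    caseB2 h ha hb hc hp hq hr hab hpq h1 h2
  B3 := fun _ _ _ _ _ _ ha hb hc hp hq hr hab hpq h1 h2 =>
    caseB3 h ha hb hc hp hq hr hab hpq h1 h2
  B4 := fun _ _ _ _ _ _ ha hb hc hp hq hr hab hpq h1 h2 =>
    caseB4 h ha hb hc hp hq hr hab hpq h1 h2

/-- for every `m ≥ 2` there is a small `q` for which any two different triangles of the family
are separated -/
theorem exists_q (m : ℕ) (hm : 2 ≤ m) : ∃ q : ℝ, HCYC.Sm m q ∧
    ∀ S ∈ HCYC.F m, ∀ T ∈ HCYC.F m, S ≠ T → HCYC.SepV m q S T := by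
  have hm2 : (2 : ℝ) ≤ m := by exact_mod_cast hm
  set K : ℝ := 1000 * ((m : ℝ) + 1) with hK
  have hK1 : 1000 ≤ K := by rw [hK]; linarith
  have hK0 : 0 < K := by linarith
  have hq0 : 0 < K ^ (-4 : ℝ) := Real.rpow_pos_of_pos hK0 _
  refine ⟨K ^ (-4 : ℝ), ⟨hq0, ?_⟩, sepV_of_cases hq0 rfl (cases_of_big ⟨?_, ?_, ?_⟩)⟩
  · have h1 : K * K ^ (-4 : ℝ) = K ^ (-3 : ℝ) := by
      have h2 := Real.rpow_add hK0 1 (-4)
      rw [Real.rpow_one] at h2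
      rw [← h2]
      norm_num
    rw [h1]
    exact Real.rpow_le_one_of_one_le_of_nonpos (by linarith) (by norm_num)
  · linarith
  · rw [← Real.rpow_mul hK0.le]
    exact Real.one_lt_rpow (by linarith) (by norm_num)
  · rw [← Real.rpow_mul hK0.le, ← Real.rpow_mul hK0.le]
    have h3 : (-4 : ℝ) * -6 * (1 / 24) = 1 := by norm_num
    rw [h3, Real.rpow_one, hK]
    linarith

open Pool.Agent.H42K in
theorem main :
    (∀ n : ℕ, IsGreatest (sizes n) (T n)) ∧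
    (∀ n : ℕ, 2 ≤ n → ((n : ℝ) - 2) * ((n : ℝ) - 5) / 6 ≤ (T n : ℝ)) ∧
    (∀ n : ℕ, (T n : ℝ) ≤ (n : ℝ) * ((n : ℝ) - 1) / 6) ∧
    (∀ m : ℕ, 3 * m * (m - 1) ≤ 2 * T (3 * m)) ∧
    Tendsto (fun n : ℕ => (T n : ℝ) / (n : ℝ) ^ 2) atTop (𝓝 (1 / 6)) :=
  HCYC.final_of exists_q

end Pool.Agent.K3C
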