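import Pool.Agent.K3C.A1
import Pool.Agent.K3C.A2
import Pool.Agent.K3C.A3
import Pool.Agent.K3C.B1
import Pool.Agent.K3C.B2
import Pool.Agent.K3C.B3
import Pool.Agent.K3C.B4
import Pool.Agent.K3C.Dict

/-! All pairs of triangles of the cyclic family are separated (MP_a19305_co). -/

set_option autoImplicit false

namespace Pool.Agent.K3C

open Pool.Agent

theorem cases_of_big {N M : ℝ} (hB : Big N M) : Cases N M where
  A1 := fun _ _ _ _ _ _ ha hb hc hp hq hr hab hpq h1 h2 hne =>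
    caseA1 hB ha hb hc hp hq hr hab hpq h1 h2 hne
  A2 := fun _ _ _ _ _ _ ha hb hc hp hq hr hab hpq h1 h2 hne =>
    caseA2 hB ha hb hc hp hq hr hab hpq h1 h2 hne
  A3 := fun _ _ _ _ _ _ ha hb hc hp hq hr hab hpq h1 h2 _ =>
    caseA3 hB ha hb hc hp hq hr hab hpq h1 h2
  B1 := fun _ _ _ _ _ _ ha hb hc hp hq hr hab hpq h1 h2 =>
    caseB1 hB ha hb hc hp hq hr hab hpq h1 h2
  B2 := fun _ _ _ _ _ _ ha hb hc hp hq hr hab hpq h1 h2 =>
    caseB2 hB ha hb hc hp hq hr hab hpq h1 h2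
  B3 := fun _ _ _ _ _ _ ha hb hc hp hq hr hab hpq h1 h2 =>
    caseB3 hB ha hb hc hp hq hr hab hpq h1 h2
  B4 := fun _ _ _ _ _ _ ha hb hc hp hq hr hab hpq h1 h2 =>
    caseB4 hB ha hb hc hp hq hr hab hpq h1 h2

/-- a suitable `q` for every `m ≥ 1` -/
theorem exists_q (m : ℕ) (hm : 1 ≤ m) : ∃ q : ℝ, HCYC.Sm m q ∧
    ∀ S ∈ HCYC.F m, ∀ T ∈ HCYC.F m, S ≠ T → HCYC.SepV m q S T := by
  have hm1 : (1 : ℝ) ≤ m := by exact_mod_cast hm
  set K : ℝ := 1000 * ((m : ℝ) + 1) with hK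
  have hK1 : 2000 ≤ K := by rw [hK]; linarith
  have hK0 : 0 < K := by linarith
  have hq : (0 : ℝ) < K ^ (-4 : ℝ) := Real.rpow_pos_of_pos hK0 _
  have hN : (K ^ (-4 : ℝ)) ^ (-6 : ℝ) = K ^ (24 : ℝ) := by
    rw [← Real.rpow_mul hK0.le]; norm_num
  have hB : Big ((K ^ (-4 : ℝ)) ^ (-6 : ℝ)) ((m : ℝ) / 2) := by
    refine ⟨by linarith, ?_, ?_⟩
    · rw [hN]
      exact Real.one_lt_rpow (by linarith) (by norm_num)
    · rw [hN, ← Real.rpow_mul hK0.le]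
      norm_num
      rw [hK]
      linarith
  refine ⟨K ^ (-4 : ℝ), ⟨hq, ?_⟩, sepV_of_cases hq rfl (cases_of_big hB)⟩
  rw [← hK]
  have h1 : K * K ^ (-4 : ℝ) = K ^ (-3 : ℝ) := by
    have h2 := Real.rpow_add hK0 1 (-4)
    rw [Real.rpow_one] at h2
    rw [← h2]; norm_num
  rw [h1]
  exact Real.rpow_le_one_of_one_le_of_nonpos (by linarith) (by norm_num)

end Pool.Agent.K3C
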